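import Pool.Agent.Q266.AV.Event

set_option autoImplicit false

namespace Pool.Agent.Q266.AV

open Filter Topology

variable {V : Type}

/-- the elements near the position `x₀` in the view `P` -/
def Nb (P : ℝ → V → Prop) (m : ℕ) (x₀ : ℝ) : Set V := NearB P m x₀ ∪ NearA P m x₀

/-- the partners of `w` seen at the ends of its arc -/
def Ns (R : ArcRep V) (m : ℕ) (w : V) : Set V :=
  Nb (R.LAt (R.b w)) m (R.r w) ∪ (Nb (R.At (R.a w)) m (R.r w) ∪ Nb (R.At (R.b w)) m (R.r w))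

/-- the pairs assigned to `w` -/
def Ss (R : ArcRep V) (m : ℕ) (w : V) : Set (V × V) :=
  (({w} ×ˢ Ns R m w) ∪ (Ns R m w ×ˢ {w})) ∪
  ((NearB (R.LAt (R.a w)) m (R.r w) ×ˢ NearA (R.LAt (R.a w)) m (R.r w)) ∪
    (NearA (R.LAt (R.a w)) m (R.r w) ×ˢ NearB (R.LAt (R.a w)) m (R.r w)))

theorem ss_symm (R : ArcRep V) (m : ℕ) (w u v : V) (h : (u, v) ∈ Ss R m w) :
    (v, u) ∈ Ss R m w := by
  rcases h with (h | h) | (h | h)
  · exact Or.inl (Or.inr ⟨h.2, h.1⟩)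
  · exact Or.inl (Or.inl ⟨h.2, h.1⟩)
  · exact Or.inr (Or.inr ⟨h.2, h.1⟩)
  · exact Or.inr (Or.inl ⟨h.2, h.1⟩)

/-- the reversed view -/
theorem near_rev (P : ℝ → V → Prop) (m : ℕ) (x₀ : ℝ) :
    NearA (fun z => P (-z)) m (-x₀) = NearB P m x₀ := by
  ext u
  constructor
  · rintro ⟨s, h1, h2, h3⟩
    refine ⟨-s, by linarith, h2, ?_⟩
    convert h3 using 2
    ext w
    constructor
    · rintro ⟨h4, z, h5, h6, h7⟩
      exact ⟨h4, -z, by linarith, by linarith, by simpa using h7⟩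
    · rintro ⟨h4, z, h5, h6, h7⟩
      exact ⟨h4, -z, by linarith, by linarith, h7⟩
  · rintro ⟨s, h1, h2, h3⟩
    refine ⟨-s, by linarith, by simpa using h2, ?_⟩
    convert h3 using 2
    ext w
    constructor
    · rintro ⟨h4, z, h5, h6, h7⟩
      exact ⟨h4, -z, by linarith, by linarith, h7⟩
    · rintro ⟨h4, z, h5, h6, h7⟩
      exact ⟨h4, -z, by linarith, by linarith, by simpa using h7⟩

theorem near_rev' (P : ℝ → V → Prop) (m : ℕ) (x₀ : ℝ) :
    NearB (fun z => P (-z)) m (-x₀) = NearA P m x₀ := by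
  have h := near_rev (fun z => P (-z)) m (-x₀)
  simp only [neg_neg] at h
  exact h.symm

theorem memA [Finite V] {P : ℝ → V → Prop} {k : ℕ} {u v : V} {x x₀ y : ℝ}
    (hc : (Btw P u v x y).ncard ≤ k) (hx : x ≤ x₀) (h0 : x₀ < y) (hv : P y v) :
    v ∈ NearA P (k + 1) x₀ := by
  refine ⟨y, h0, hv, ?_⟩
  have hsub : {w | w ≠ v ∧ ∃ z, x₀ < z ∧ z < y ∧ P z w} ⊆ insert u (Btw P u v x y) := by
    rintro w ⟨h1, z, h2, h3, h4⟩
    by_cases hwu : w = u
    · exact Or.inl hwu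
    · exact Or.inr ⟨hwu, h1, z, by linarith, h3, h4⟩
  calc _ ≤ (insert u (Btw P u v x y)).ncard := Set.ncard_le_ncard hsub (Set.toFinite _)
    _ ≤ (Btw P u v x y).ncard + 1 := Set.ncard_insert_le _ _
    _ ≤ k + 1 := by omega

theorem memB [Finite V] {P : ℝ → V → Prop} {k : ℕ} {u v : V} {x x₀ y : ℝ}
    (hc : (Btw P u v x y).ncard ≤ k) (hx : x < x₀) (h0 : x₀ ≤ y) (hu : P x u) :
    u ∈ NearB P (k + 1) x₀ := by
  refine ⟨x, hx, hu, ?_⟩
  have hsub : {w | w ≠ u ∧ ∃ z, x < z ∧ z < x₀ ∧ P z w} ⊆ insert v (Btw P u v x y) := by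
    rintro w ⟨h1, z, h2, h3, h4⟩
    by_cases hwv : w = v
    · exact Or.inl hwv
    · exact Or.inr ⟨h1, hwv, z, h2, by linarith, h4⟩
  calc _ ≤ (insert v (Btw P u v x y)).ncard := Set.ncard_le_ncard hsub (Set.toFinite _)
    _ ≤ (Btw P u v x y).ncard + 1 := Set.ncard_insert_le _ _
    _ ≤ k + 1 := by omega

theorem lat_eq {R : ArcRep V} {θ c : ℝ} {κ : ℤ} (h : θ + κ = c) : R.LAt θ = R.LAt c := by
  funext z w
  rw [← h]
  exact propext (lat_per R θ z w κ).symm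

theorem lat_eq' {R : ArcRep V} {θ c : ℝ} {κ : ℤ} (h : θ + 1 / 2 + κ = c) :
    R.LAt θ = fun z => R.LAt c (-z) := by
  funext z w
  rw [← h]
  rw [lat_per R (θ + 1 / 2) (-z) w κ, lat_rev]

theorem at_eq {R : ArcRep V} {θ c : ℝ} {κ : ℤ} (h : θ + κ = c) : R.At θ = R.At c := by
  funext z w
  rw [← h]
  exact propext (at_per R θ z w κ).symm

theorem at_eq' {R : ArcRep V} {θ c : ℝ} {κ : ℤ} (h : θ + 1 / 2 + κ = c) :
    R.At θ = fun z => R.At c (-z) := by
  funext z w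
  rw [← h]
  rw [at_per R (θ + 1 / 2) (-z) w κ, at_rev]

/-- near elements in reversed views -/
theorem nb_rev (P : ℝ → V → Prop) (m : ℕ) (x₀ : ℝ) :
    Nb (fun z => P (-z)) m (-x₀) = Nb P m x₀ := by
  unfold Nb
  rw [near_rev, near_rev', Set.union_comm]

theorem assign_left [Finite V] (R : ArcRep V) (k : ℕ) (u v : V) (x y : ℝ) (hxy : x < y) (θ : ℝ)
    (hu : R.LAt θ x u) (hv : R.LAt θ y v) (hc : (Btw (R.LAt θ) u v x y).ncard ≤ k)
    (hn : R.b u < R.a u + 1 ∨ R.b v < R.a v + 1) :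
    ∃ w, (u, v) ∈ Ss R (k + 1) w := by
  obtain ⟨t, h1, h2, h3, h4⟩ := event R k u v x y θ hu hv hc hn
  rcases h4 with h4 | h4 | ⟨w, z, h5, h6, h7⟩
  · refine ⟨u, Or.inl (Or.inl ⟨rfl, Or.inl ?_⟩)⟩
    have h8 : v ∈ Nb (R.LAt t) (k + 1) x := Or.inr (memA h3 le_rfl hxy h2)
    rcases h4 with ⟨h9, κ, h10⟩ | ⟨h9, κ, h10⟩
    · rw [lat_eq h10, h9] at h8
      exact h8
    · rw [lat_eq' h10, h9, nb_rev] at h8
      exact h8
  · refine ⟨v, Or.inl (Or.inr ⟨Or.inl ?_, rfl⟩)⟩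
    have h8 : u ∈ Nb (R.LAt t) (k + 1) y := Or.inl (memB h3 hxy le_rfl h1)
    rcases h4 with ⟨h9, κ, h10⟩ | ⟨h9, κ, h10⟩
    · rw [lat_eq h10, h9] at h8
      exact h8
    · rw [lat_eq' h10, h9, nb_rev] at h8
      exact h8
  · have h8 : u ∈ NearB (R.LAt t) (k + 1) z := memB h3 h5 h6.le h1
    have h9 : v ∈ NearA (R.LAt t) (k + 1) z := memA h3 h5.le h6 h2
    rcases h7 with ⟨h10, κ, h11⟩ | ⟨h10, κ, h11⟩
    · rw [lat_eq h11, h10] at h8 h9
      exact ⟨w, Or.inr (Or.inl ⟨h8, h9⟩)⟩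
    · rw [lat_eq' h11, h10] at h8 h9
      rw [near_rev'] at h8
      rw [near_rev] at h9
      exact ⟨w, Or.inr (Or.inr ⟨h8, h9⟩)⟩

theorem btw_mono [Finite V] (R : ArcRep V) (θ : ℝ) (u v : V) (x y : ℝ) :
    (Btw (R.LAt θ) u v x y).ncard ≤ (Btw (R.At θ) u v x y).ncard :=
  Set.ncard_le_ncard (fun _ h => ⟨h.1, h.2.1, by
    obtain ⟨z, h1, h2, h3⟩ := h.2.2
    exact ⟨z, h1, h2, h3.at⟩⟩) (Set.toFinite _)

theorem at_cases {R : ArcRep V} {θ x : ℝ} {u : V} (h : R.At θ x u) :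
    R.LAt θ x u ∨ R.First θ x u := by
  rcases h with ⟨h1, κ, h2, h3⟩ | ⟨h1, κ, h2, h3⟩
  · rcases eq_or_lt_of_le h2 with h4 | h4
    · exact Or.inr (Or.inl ⟨h1, κ, h4.symm⟩)
    · exact Or.inl (Or.inl ⟨h1, κ, h4, h3⟩)
  · rcases eq_or_lt_of_le h2 with h4 | h4
    · exact Or.inr (Or.inr ⟨h1, κ, h4.symm⟩)
    · exact Or.inl (Or.inr ⟨h1, κ, h4, h3⟩)

theorem assign [Finite V] (R : ArcRep V) (k : ℕ) (u v : V) (x y : ℝ) (hxy : x < y) (θ : ℝ)
    (hu : R.At θ x u) (hv : R.At θ y v) (hc : (Btw (R.At θ) u v x y).ncard ≤ k)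
    (hn : R.b u < R.a u + 1 ∨ R.b v < R.a v + 1) :
    ∃ w, (u, v) ∈ Ss R (k + 1) w := by
  rcases at_cases hu with h1 | h1
  · rcases at_cases hv with h2 | h2
    · exact assign_left R k u v x y hxy θ h1 h2 ((btw_mono R θ u v x y).trans hc) hn
    · refine ⟨v, Or.inl (Or.inr ⟨Or.inr (Or.inl ?_), rfl⟩)⟩
      have h8 : u ∈ Nb (R.At θ) (k + 1) y := Or.inl (memB hc hxy le_rfl hu)
      rcases h2 with ⟨h9, κ, h10⟩ | ⟨h9, κ, h10⟩
      · rw [at_eq h10, h9] at h8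
        exact h8
      · rw [at_eq' h10, h9, nb_rev] at h8
        exact h8
  · refine ⟨u, Or.inl (Or.inl ⟨rfl, Or.inr (Or.inl ?_)⟩)⟩
    have h8 : v ∈ Nb (R.At θ) (k + 1) x := Or.inr (memA hc le_rfl hxy hv)
    rcases h1 with ⟨h9, κ, h10⟩ | ⟨h9, κ, h10⟩
    · rw [at_eq h10, h9] at h8
      exact h8
    · rw [at_eq' h10, h9, nb_rev] at h8
      exact h8

theorem assign_sees [Finite V] (R : ArcRep V) (k : ℕ) (u v : V) (huv : u ≠ v)
    (h : R.Sees k u v) (hn : R.b u < R.a u + 1 ∨ R.b v < R.a v + 1) :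
    ∃ w, (u, v) ∈ Ss R (k + 1) w := by
  obtain ⟨θ, x, y, hx, hy, hc⟩ := h
  rcases lt_trichotomy x y with h1 | h1 | h1
  · refine assign R k u v x y h1 θ hx hy (le_trans (Set.ncard_le_ncard ?_ (Set.toFinite _)) hc) hn
    rintro w ⟨h2, h3, z, h4, h5, h6⟩
    exact ⟨h2, h3, z, by rw [Set.uIcc_of_le h1.le]; exact ⟨h4.le, h5.le⟩, h6⟩
  · rw [h1] at hx
    exact absurd (at_inj R θ y u v hx hy) huv
  · obtain ⟨w, hw⟩ := assign R k v u y x h1 θ hy hx
      (le_trans (Set.ncard_le_ncard (by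
        rintro w ⟨h2, h3, z, h4, h5, h6⟩
        exact ⟨h3, h2, z, by rw [Set.uIcc_of_ge h1.le]; exact ⟨h4.le, h5.le⟩, h6⟩)
        (Set.toFinite _)) hc) hn.symm
    exact ⟨w, ss_symm R _ w v u hw⟩

theorem nb_card [Finite V] (P : ℝ → V → Prop) (hP : ∀ z u v, P z u → P z v → u = v) (m : ℕ)
    (x₀ : ℝ) : (Nb P m x₀).ncard ≤ 2 * (m + 1) :=
  (Set.ncard_union_le _ _).trans (by
    have h1 := nearB_card P hP m x₀
    have h2 := nearA_card P hP m x₀
    omega)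

theorem ns_card [Finite V] (R : ArcRep V) (m : ℕ) (w : V) : (Ns R m w).ncard ≤ 6 * (m + 1) := by
  have h1 := nb_card (R.LAt (R.b w)) (fun z u v => lat_inj R _ z u v) m (R.r w)
  have h2 := nb_card (R.At (R.a w)) (fun z u v => at_inj R _ z u v) m (R.r w)
  have h3 := nb_card (R.At (R.b w)) (fun z u v => at_inj R _ z u v) m (R.r w)
  have h4 := Set.ncard_union_le (Nb (R.LAt (R.b w)) m (R.r w))
    (Nb (R.At (R.a w)) m (R.r w) ∪ Nb (R.At (R.b w)) m (R.r w))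
  have h5 := Set.ncard_union_le (Nb (R.At (R.a w)) m (R.r w)) (Nb (R.At (R.b w)) m (R.r w))
  unfold Ns
  omega

theorem ss_card [Finite V] (R : ArcRep V) (m : ℕ) (w : V) :
    (Ss R m w).ncard ≤ 12 * (m + 1) + 2 * ((m + 1) * (m + 1)) := by
  have h1 := ns_card R m w
  have h2 := nearB_card (R.LAt (R.a w)) (fun z u v => lat_inj R _ z u v) m (R.r w)
  have h3 := nearA_card (R.LAt (R.a w)) (fun z u v => lat_inj R _ z u v) m (R.r w)
  have h4 := Nat.mul_le_mul h2 h3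
  have e1 : (({w} : Set V) ×ˢ Ns R m w).ncard = (Ns R m w).ncard := by
    rw [Set.ncard_prod, Set.ncard_singleton, one_mul]
  have e2 : (Ns R m w ×ˢ ({w} : Set V)).ncard = (Ns R m w).ncard := by
    rw [Set.ncard_prod, Set.ncard_singleton, mul_one]
  have e3 := Set.ncard_prod (s := NearB (R.LAt (R.a w)) m (R.r w))
    (t := NearA (R.LAt (R.a w)) m (R.r w))
  have e4 := Set.ncard_prod (s := NearA (R.LAt (R.a w)) m (R.r w))
    (t := NearB (R.LAt (R.a w)) m (R.r w))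
  have h5 := Nat.mul_le_mul h3 h2
  have u1 := Set.ncard_union_le (({w} : Set V) ×ˢ Ns R m w) (Ns R m w ×ˢ ({w} : Set V))
  have u2 := Set.ncard_union_le
    (NearB (R.LAt (R.a w)) m (R.r w) ×ˢ NearA (R.LAt (R.a w)) m (R.r w))
    (NearA (R.LAt (R.a w)) m (R.r w) ×ˢ NearB (R.LAt (R.a w)) m (R.r w))
  have u3 := Set.ncard_union_le ((({w} : Set V) ×ˢ Ns R m w) ∪ (Ns R m w ×ˢ ({w} : Set V)))
    ((NearB (R.LAt (R.a w)) m (R.r w) ×ˢ NearA (R.LAt (R.a w)) m (R.r w)) ∪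
    (NearA (R.LAt (R.a w)) m (R.r w) ×ˢ NearB (R.LAt (R.a w)) m (R.r w)))
  unfold Ss
  omega

/-- pairwise visible whole circles -/
theorem circle_count [Finite V] (R : ArcRep V) (k : ℕ) (h : ∀ u v, u ≠ v → R.Sees k u v) :
    {w | R.b w = R.a w + 1}.ncard ≤ k + 2 := by
  classical
  set C : Set V := {w | R.b w = R.a w + 1} with hC
  have hfin : C.Finite := Set.toFinite _
  by_contra hcon
  push Not at hcon
  have hne : C.Nonempty := by
    rw [← Set.ncard_pos hfin]; omega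
  obtain ⟨u, hu, hmin⟩ := Set.exists_min_image C R.r hfin hne
  obtain ⟨v, hv, hmax⟩ := Set.exists_max_image C R.r hfin hne
  have hon : ∀ w ∈ C, ∀ θ, R.On w θ := by
    intro w hw θ
    have hw' : R.b w = R.a w + 1 := hw
    refine ⟨- ⌊θ - R.a w⌋, ?_, ?_⟩
    · push_cast
      linarith [Int.floor_le (θ - R.a w)]
    · push_cast
      rw [hw']
      linarith [Int.lt_floor_add_one (θ - R.a w)]
  have huv : u ≠ v := by
    rintro rfl
    have hsub : C ⊆ {u} := by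
      intro w hw
      by_contra hwu
      have hwu' : w ≠ u := hwu
      exact R.disjoint w u hwu' (le_antisymm (hmax w hw) (hmin w hw)) 0 ⟨hon w hw 0, hon u hu 0⟩
    have := Set.ncard_le_ncard hsub (Set.toFinite _)
    rw [Set.ncard_singleton] at this
    omega
  obtain ⟨θ, x, y, hx, hy, hc⟩ := h u v huv
  have hru := R.r_pos u
  have hsub : (C \ {u}) \ {v} ⊆ {w | w ≠ u ∧ w ≠ v ∧ ∃ z ∈ Set.uIcc x y, R.At θ z w} := by
    rintro w ⟨⟨hw, hwu⟩, hwv⟩
    refine ⟨hwu, hwv, ?_⟩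
    have h1 := hmin w hw
    have h2 := hmax w hw
    have hx' : - R.r u ≤ x ∧ x ≤ R.r u := by
      rcases hx with ⟨hx, -⟩ | ⟨hx, -⟩ <;> constructor <;> linarith
    rcases hy with ⟨hy, -⟩ | ⟨hy, -⟩
    · refine ⟨R.r w, ?_, Or.inl ⟨rfl, hon w hw θ⟩⟩
      rw [Set.mem_uIcc]
      exact Or.inl ⟨by linarith [hx'.2], by linarith⟩
    · refine ⟨- R.r w, ?_, Or.inr ⟨rfl, hon w hw _⟩⟩
      rw [Set.mem_uIcc]
      exact Or.inr ⟨by linarith, by linarith [hx'.1]⟩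
  have h1 := Set.ncard_le_ncard hsub (Set.toFinite _)
  have h2 : (C \ {u}).ncard = C.ncard - 1 := Set.ncard_sdiff_singleton_of_mem hu
  have h3 : ((C \ {u}) \ {v}).ncard = (C \ {u}).ncard - 1 :=
    Set.ncard_sdiff_singleton_of_mem ⟨hv, fun h => huv h.symm⟩
  omega

/-- the bound for complete graphs -/
def bd (k : ℕ) : ℕ := 12 * (k + 2) + 2 * ((k + 2) * (k + 2)) + 1 + (k + 2) * (k + 2)

/-- Complete arc `k`-visibility graphs have boundedly many vertices. -/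
theorem clique_bound [Fintype V] (R : ArcRep V) (k : ℕ) (h : ∀ u v, u ≠ v → R.Sees k u v) :
    Fintype.card V ≤ bd k := by
  classical
  set D := 12 * (k + 2) + 2 * ((k + 2) * (k + 2)) with hD
  set C : Finset V := (Set.toFinite {w | R.b w = R.a w + 1}).toFinset with hC
  have hCc : C.card ≤ k + 2 := by
    rw [hC, ← Set.ncard_eq_toFinset_card]
    exact circle_count R k h
  have h1 : (Finset.univ : Finset V).offDiag ⊆
      (Finset.univ.biUnion fun w => (Set.toFinite (Ss R (k + 1) w)).toFinset) ∪ C ×ˢ C := by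
    rintro ⟨u, v⟩ huv
    rw [Finset.mem_offDiag] at huv
    by_cases hn : R.b u < R.a u + 1 ∨ R.b v < R.a v + 1
    · obtain ⟨w, hw⟩ := assign_sees R k u v huv.2.2 (h u v huv.2.2) hn
      rw [Finset.mem_union, Finset.mem_biUnion]
      exact Or.inl ⟨w, Finset.mem_univ _, by simpa using hw⟩
    · push Not at hn
      rw [Finset.mem_union, Finset.mem_product]
      refine Or.inr ⟨?_, ?_⟩
      · rw [hC, Set.Finite.mem_toFinset]
        exact le_antisymm (R.b_le u) hn.1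
      · rw [hC, Set.Finite.mem_toFinset]
        exact le_antisymm (R.b_le v) hn.2
  have h2 := (Finset.card_le_card h1).trans (Finset.card_union_le _ _)
  have h3 : (Finset.univ.biUnion fun w => (Set.toFinite (Ss R (k + 1) w)).toFinset).card ≤
      (Finset.univ : Finset V).card * D := by
    refine Finset.card_biUnion_le_card_mul _ _ _ fun w _ => ?_
    rw [← Set.ncard_eq_toFinset_card]
    exact ss_card R (k + 1) w
  have h4 : (C ×ˢ C).card ≤ (k + 2) * (k + 2) := by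
    rw [Finset.card_product]
    exact Nat.mul_le_mul hCc hCc
  rw [Finset.offDiag_card] at h2
  rw [Finset.card_univ] at h2 h3
  set n := Fintype.card V
  set E := (k + 2) * (k + 2) with hE
  have h5 : n * n - n ≤ n * D + E := by omega
  have h6 : bd k = D + 1 + E := by
    unfold bd
    rw [hD, hE]
  rw [h6]
  rcases Nat.eq_zero_or_pos n with h0 | hpos
  · omega
  · have h7 : E ≤ n * E := Nat.le_mul_of_pos_left E hpos
    have h8 : n * n ≤ n * (D + 1 + E) := by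
      have : n * (D + 1 + E) = n * D + n + n * E := by ring
      omega
    exact Nat.le_of_mul_le_mul_left h8 hpos

end Pool.Agent.Q266.AV
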