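import Pool.Agent.Q266.AV.NotCirc

set_option autoImplicit false

namespace Pool.Agent.Q266.AV

variable {V : Type}

/-- the distance from `O`, for the seven vertices of the subdivided claw -/
def ro : Fin 7 → ℕ := ![3, 2, 2, 2, 3, 3, 1]

/-- the first angle, in hundredths of a turn -/
def fa : Fin 7 → ℕ := ![10, 5, 28, 17, 2, 33, 19]

/-- the last angle, in hundredths of a turn -/
def fb : Fin 7 → ℕ := ![30, 12, 35, 23, 7, 38, 21]

/-- the angle of a line of sight -/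
def wa : Fin 7 → ℕ := ![0, 11, 29, 20, 6, 34, 20]

/-- an angle free for the long arcs -/
def wl : Fin 7 → ℕ := ![15, 8, 31, 18, 3, 37, 20]

/-- adjacency of the subdivided claw: the centre `0`, its neighbours `1, 2, 3`, and the leaves
`4, 5, 6` -/
def TAdj (s t : Fin 7) : Prop :=
  (s.val = 0 ∧ 1 ≤ t.val ∧ t.val ≤ 3) ∨ (t.val = 0 ∧ 1 ≤ s.val ∧ s.val ≤ 3) ∨
    (1 ≤ s.val ∧ t.val = s.val + 3) ∨ (1 ≤ t.val ∧ s.val = t.val + 3)

instance (s t : Fin 7) : Decidable (TAdj s t) := by unfold TAdj; infer_instance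

theorem tadj_symm {s t : Fin 7} (h : TAdj s t) : TAdj t s := by
  unfold TAdj at h ⊢
  omega

theorem tadj_ne {s t : Fin 7} (h : TAdj s t) : s ≠ t := by
  rintro rfl
  unfold TAdj at h
  omega

theorem f_bounds : ∀ s : Fin 7, 1 ≤ fa s ∧ fa s < fb s ∧ fb s ≤ 39 ∧ 1 ≤ ro s ∧ ro s ≤ 3 := by
  decide

theorem f_disj : ∀ s t : Fin 7, s ≠ t → ro s = ro t → fb s < fa t ∨ fb t < fa s := by
  decide

theorem f_non : ∀ s t : Fin 7, s ≠ t → ¬ TAdj s t → fb s < fa t ∨ fb t < fa s ∨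
    (s = 0 ∧ t = 6) ∨ (s = 6 ∧ t = 0) := by
  decide

theorem f_wit : ∀ s t : Fin 7, TAdj s t → (fa s ≤ wa (max s t) ∧ wa (max s t) ≤ fb s) ∧
    fa t ≤ wa (max s t) ∧ wa (max s t) ≤ fb t := by
  decide

theorem f_free : ∀ s t : Fin 7, TAdj s t → ∀ w : Fin 7, w ≠ s → w ≠ t →
    min (ro s) (ro t) ≤ ro w → ro w ≤ max (ro s) (ro t) →
    wa (max s t) < fa w ∨ fb w < wa (max s t) := by
  decide

theorem f_long : ∀ s : Fin 7, fa s ≤ wl s ∧ wl s ≤ fb s := by
  decide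

theorem f_longfree : ∀ s w : Fin 7, w ≠ s → ((2 ≤ ro s ∧ 2 ≤ ro w ∧ ro w ≤ ro s) ∨
    (ro s = 1 ∧ ro w = 1)) → wl s < fa w ∨ fb w < wl s := by
  decide

theorem f_tri : ∀ s t u : Fin 7, TAdj s t → TAdj t u → TAdj s u → False := by
  decide

/-! ### representations with arcs in a half of the circle -/

theorem half_sees (R : ArcRep V) (h0 : ∀ w, 0 ≤ R.a w) (h1 : ∀ w, R.b w < 1 / 2) [Finite V]
    (k : ℕ) (u v : V) : R.Sees k u v ↔ ∃ t, (R.a u ≤ t ∧ t ≤ R.b u) ∧ (R.a v ≤ t ∧ t ≤ R.b v) ∧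
      {w | w ≠ u ∧ w ≠ v ∧ R.r w ∈ Set.uIcc (R.r u) (R.r v) ∧ R.a w ≤ t ∧ t ≤ R.b w}.ncard ≤ k := by
  have hint : ∀ (x y : ℝ) (m : ℤ), 0 ≤ x → x < 1 / 2 → 0 ≤ y → y < 1 / 2 → y = x + m → m = 0 := by
    intro x y m h2 h3 h4 h5 h6
    have h7 : (-1 : ℝ) < m := by linarith
    have h8 : (m : ℝ) < 1 := by linarith
    have h9 : (-1 : ℤ) < m := by exact_mod_cast h7
    have h10 : m < (1 : ℤ) := by exact_mod_cast h8
    omega
  have hon : ∀ (t : ℝ) (w : V), 0 ≤ t → t < 1 / 2 → R.On w t → R.a w ≤ t ∧ t ≤ R.b w := by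
    rintro t w h2 h3 ⟨m, h4, h5⟩
    have h6 := hint t (t + m) m h2 h3 (by linarith [h0 w]) (by linarith [h1 w]) rfl
    rw [h6, Int.cast_zero, add_zero] at h4 h5
    exact ⟨h4, h5⟩
  have hoff : ∀ (t : ℝ) (w : V), 0 ≤ t → t < 1 / 2 → ¬ R.On w (t + 1 / 2) := by
    rintro t w h2 h3 ⟨m, h4, h5⟩
    have h6 := h0 w
    have h7 := h1 w
    have h8 : (-1 : ℝ) < m := by linarith
    have h9 : (m : ℝ) < 0 := by linarith
    have h10 : (-1 : ℤ) < m := by exact_mod_cast h8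
    have h11 : m < (0 : ℤ) := by exact_mod_cast h9
    omega
  have main : ∀ θ x y, x = R.r u → R.On u θ → R.At θ y v →
      {w | w ≠ u ∧ w ≠ v ∧ ∃ z ∈ Set.uIcc x y, R.At θ z w}.ncard ≤ k →
      ∃ t, (R.a u ≤ t ∧ t ≤ R.b u) ∧ (R.a v ≤ t ∧ t ≤ R.b v) ∧
      {w | w ≠ u ∧ w ≠ v ∧ R.r w ∈ Set.uIcc (R.r u) (R.r v) ∧ R.a w ≤ t ∧ t ≤ R.b w}.ncard ≤ k := by
    rintro θ x y hx ⟨m, h2, h3⟩ h4 h5
    have h6 : 0 ≤ θ + m := by linarith [h0 u]
    have h7 : θ + m < 1 / 2 := by linarith [h1 u]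
    have h8 : R.At (θ + m) = R.At θ := by
      funext z w
      exact propext (at_per R θ z w m)
    rw [← h8] at h4
    have h9 : y = R.r v ∧ R.a v ≤ θ + m ∧ θ + m ≤ R.b v := by
      rcases h4 with ⟨h9, h10⟩ | ⟨h9, h10⟩
      · exact ⟨h9, hon _ _ h6 h7 h10⟩
      · exact absurd h10 (hoff _ _ h6 h7)
    refine ⟨θ + m, ⟨h2, h3⟩, h9.2, le_trans (Set.ncard_le_ncard ?_ (Set.toFinite _)) h5⟩
    rintro w ⟨h10, h11, h12, h13, h14⟩
    refine ⟨h10, h11, R.r w, ?_, ?_⟩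
    · rw [hx, h9.1]; exact h12
    · rw [← h8]
      exact Or.inl ⟨rfl, 0, by simpa using h13, by simpa using h14⟩
  constructor
  · rintro ⟨θ, x, y, hx, hy, hc⟩
    rcases hx with ⟨hx, hx'⟩ | ⟨hx, hx'⟩
    · exact main θ x y hx hx' hy hc
    · refine main (θ + 1 / 2) (-x) (-y) (by rw [hx, neg_neg]) hx' ((at_rev R θ y v).2 hy) ?_
      refine le_trans (Set.ncard_le_ncard ?_ (Set.toFinite _)) hc
      rintro w ⟨h2, h3, z, h4, h5⟩
      refine ⟨h2, h3, -z, ?_, ?_⟩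
      · rw [Set.mem_uIcc] at h4 ⊢
        rcases h4 with h4 | h4
        · exact Or.inr ⟨by linarith [h4.2], by linarith [h4.1]⟩
        · exact Or.inl ⟨by linarith [h4.2], by linarith [h4.1]⟩
      · rw [← at_rev, neg_neg]; exact h5
  · rintro ⟨t, h2, h3, h4⟩
    refine ⟨t, R.r u, R.r v, Or.inl ⟨rfl, 0, by simpa using h2⟩, Or.inl ⟨rfl, 0, by simpa using h3⟩,
      le_trans (Set.ncard_le_ncard ?_ (Set.toFinite _)) h4⟩
    rintro w ⟨h5, h6, z, h7, h8⟩
    have h9 : 0 ≤ t := le_trans (h0 u) h2.1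
    have h10 : t < 1 / 2 := lt_of_le_of_lt h2.2 (h1 u)
    rcases h8 with ⟨h11, h12⟩ | ⟨h11, h12⟩
    · refine ⟨h5, h6, ?_, hon t w h9 h10 h12⟩
      rw [← h11]; exact h7
    · exact absurd h12 (hoff t w h9 h10)

/-! ### the representation -/

theorem frac_bounds (l : ℕ) : 1 < 1 + 1 / ((l : ℝ) + 2) ∧ 1 + 1 / ((l : ℝ) + 2) < 2 := by
  have h : (0 : ℝ) ≤ l := Nat.cast_nonneg l
  have h1 : (0 : ℝ) < 1 / ((l : ℝ) + 2) := by positivity
  have h2 : 1 / ((l : ℝ) + 2) < 1 := by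
    rw [div_lt_one (by linarith)]; linarith
  constructor <;> linarith

theorem on_half {a b θ : ℝ} {k l : ℤ} {c d : ℝ} (ha : 0 ≤ a) (hb : b < 1 / 2) (hc : 0 ≤ c)
    (hd : d < 1 / 2) (h1 : a ≤ θ + k) (h2 : θ + k ≤ b) (h3 : c ≤ θ + l) (h4 : θ + l ≤ d) :
    k = l := by
  have h5 : (-1 : ℝ) < (k : ℝ) - l := by linarith
  have h6 : (k : ℝ) - l < 1 := by linarith
  have h7 : (-1 : ℤ) < k - l := by exact_mod_cast h5
  have h8 : k - l < (1 : ℤ) := by exact_mod_cast h6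
  omega

noncomputable def clawRep (j : ℕ) : ArcRep (Fin 7 ⊕ Fin j) where
  r := Sum.elim (fun s => (ro s : ℝ)) fun l => 1 + 1 / ((l.val : ℝ) + 2)
  a := Sum.elim (fun s => (fa s : ℝ) / 100) fun _ => 1 / 100
  b := Sum.elim (fun s => (fb s : ℝ) / 100) fun _ => 39 / 100
  r_pos := by
    rintro (s | l)
    · show (0 : ℝ) < (ro s : ℝ)
      exact_mod_cast (f_bounds s).2.2.2.1
    · show (0 : ℝ) < 1 + 1 / ((l.val : ℝ) + 2)
      linarith [(frac_bounds l.val).1]
  a_le_b := by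
    rintro (s | l)
    · show (fa s : ℝ) / 100 ≤ (fb s : ℝ) / 100
      have : (fa s : ℝ) < fb s := by exact_mod_cast (f_bounds s).2.1
      linarith
    · show (1 : ℝ) / 100 ≤ 39 / 100
      norm_num
  b_le := by
    rintro (s | l)
    · show (fb s : ℝ) / 100 ≤ (fa s : ℝ) / 100 + 1
      have h1 : (fb s : ℝ) ≤ 39 := by exact_mod_cast (f_bounds s).2.2.1
      have h2 : (0 : ℝ) ≤ fa s := Nat.cast_nonneg _
      linarith
    · show (39 : ℝ) / 100 ≤ 1 / 100 + 1
      norm_num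
  disjoint := by
    rintro (s | l) (t | l') huv he θ ⟨⟨k, h1, h2⟩, k', h3, h4⟩
    · have he' : (ro s : ℝ) = ro t := he
      have he'' : ro s = ro t := by exact_mod_cast he'
      have h1' : (fa s : ℝ) / 100 ≤ θ + k := h1
      have h2' : θ + k ≤ (fb s : ℝ) / 100 := h2
      have h3' : (fa t : ℝ) / 100 ≤ θ + k' := h3
      have h4' : θ + k' ≤ (fb t : ℝ) / 100 := h4
      have e1 : (0 : ℝ) ≤ fa s := Nat.cast_nonneg _
      have e2 : (0 : ℝ) ≤ fa t := Nat.cast_nonneg _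
      have e3 : (fb s : ℝ) ≤ 39 := by exact_mod_cast (f_bounds s).2.2.1
      have e4 : (fb t : ℝ) ≤ 39 := by exact_mod_cast (f_bounds t).2.2.1
      have hk : k = k' := on_half (by linarith) (by linarith) (by linarith) (by linarith) h1' h2'
        h3' h4'
      rw [hk] at h1' h2'
      rcases f_disj s t (fun h => huv (by rw [h])) he'' with h5 | h5
      · have h6 : (fb s : ℝ) < fa t := by exact_mod_cast h5
        linarith
      · have h6 : (fb t : ℝ) < fa s := by exact_mod_cast h5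
        linarith
    · have he' : (ro s : ℝ) = 1 + 1 / ((l'.val : ℝ) + 2) := he
      have h5 := frac_bounds l'.val
      rw [← he'] at h5
      have h6 : 1 < ro s := by exact_mod_cast h5.1
      have h7 : ro s < 2 := by exact_mod_cast h5.2
      omega
    · have he' : 1 + 1 / ((l.val : ℝ) + 2) = (ro t : ℝ) := he
      have h5 := frac_bounds l.val
      rw [he'] at h5
      have h6 : 1 < ro t := by exact_mod_cast h5.1
      have h7 : ro t < 2 := by exact_mod_cast h5.2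
      omega
    · have he' : 1 + 1 / ((l.val : ℝ) + 2) = 1 + 1 / ((l'.val : ℝ) + 2) := he
      have h5 : (0 : ℝ) ≤ l.val := Nat.cast_nonneg _
      have h6 : (0 : ℝ) ≤ l'.val := Nat.cast_nonneg _
      have h7 : (l.val : ℝ) + 2 = (l'.val : ℝ) + 2 := by
        have h8 : 1 / ((l.val : ℝ) + 2) = 1 / ((l'.val : ℝ) + 2) := by linarith
        have := congrArg (fun x => 1 / x) h8
        simpa using this
      have h9 : (l.val : ℝ) = l'.val := by linarith
      have h10 : l.val = l'.val := by exact_mod_cast h9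
      exact huv (by rw [Fin.ext h10])

theorem claw_a (j : ℕ) (w : Fin 7 ⊕ Fin j) : 1 / 100 ≤ (clawRep j).a w := by
  rcases w with s | l
  · show (1 : ℝ) / 100 ≤ (fa s : ℝ) / 100
    have : (1 : ℝ) ≤ fa s := by exact_mod_cast (f_bounds s).1
    linarith
  · exact le_rfl

theorem claw_b (j : ℕ) (w : Fin 7 ⊕ Fin j) : (clawRep j).b w ≤ 39 / 100 := by
  rcases w with s | l
  · show (fb s : ℝ) / 100 ≤ 39 / 100
    have : (fb s : ℝ) ≤ 39 := by exact_mod_cast (f_bounds s).2.2.1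
    linarith
  · exact le_rfl

theorem claw_lt (j : ℕ) (w : Fin 7 ⊕ Fin j) : (clawRep j).a w < (clawRep j).b w := by
  rcases w with s | l
  · show (fa s : ℝ) / 100 < (fb s : ℝ) / 100
    have : (fa s : ℝ) < fb s := by exact_mod_cast (f_bounds s).2.1
    linarith
  · show (1 : ℝ) / 100 < 39 / 100
    norm_num

theorem range_inr_ncard (j : ℕ) : (Set.range (Sum.inr : Fin j → Fin 7 ⊕ Fin j)).ncard = j := by
  rw [← Set.image_univ, Set.ncard_image_of_injective _ Sum.inr_injective, Set.ncard_univ,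
    Nat.card_eq_fintype_card, Fintype.card_fin]

/-- a line of sight with only long arcs as further arcs -/
theorem claw_sees (j : ℕ) (u v : Fin 7 ⊕ Fin j) (t : ℝ)
    (hu : (clawRep j).a u ≤ t ∧ t ≤ (clawRep j).b u) (hv : (clawRep j).a v ≤ t ∧ t ≤ (clawRep j).b v)
    (hw : ∀ w : Fin 7, Sum.inl w ≠ u → Sum.inl w ≠ v →
      (ro w : ℝ) ∈ Set.uIcc ((clawRep j).r u) ((clawRep j).r v) →
      ¬ ((fa w : ℝ) / 100 ≤ t ∧ t ≤ (fb w : ℝ) / 100)) :
    (clawRep j).Sees j u v := by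
  rw [half_sees (clawRep j) (fun w => by linarith [claw_a j w]) (fun w => by linarith [claw_b j w])]
  refine ⟨t, hu, hv, ?_⟩
  have hsub : {w | w ≠ u ∧ w ≠ v ∧ (clawRep j).r w ∈ Set.uIcc ((clawRep j).r u) ((clawRep j).r v) ∧
      (clawRep j).a w ≤ t ∧ t ≤ (clawRep j).b w} ⊆ Set.range Sum.inr := by
    rintro (w | l) ⟨h1, h2, h3, h4⟩
    · exact absurd h4 (hw w h1 h2 h3)
    · exact ⟨l, rfl⟩
  exact (Set.ncard_le_ncard hsub (Set.toFinite _)).trans (range_inr_ncard j).le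

theorem nat_between {s t w : ℕ} (h : (w : ℝ) ∈ Set.uIcc (s : ℝ) (t : ℝ)) :
    min s t ≤ w ∧ w ≤ max s t := by
  rw [Set.mem_uIcc] at h
  rcases h with h | h
  · have h1 : s ≤ w := by exact_mod_cast h.1
    have h2 : w ≤ t := by exact_mod_cast h.2
    omega
  · have h1 : t ≤ w := by exact_mod_cast h.1
    have h2 : w ≤ s := by exact_mod_cast h.2
    omega

theorem claw_sees_tree (j : ℕ) (s t : Fin 7) (h : TAdj s t) :
    (clawRep j).Sees j (Sum.inl s) (Sum.inl t) := by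
  obtain ⟨⟨h1, h2⟩, h3, h4⟩ := f_wit s t h
  have h1' : (fa s : ℝ) ≤ wa (max s t) := by exact_mod_cast h1
  have h2' : (wa (max s t) : ℝ) ≤ fb s := by exact_mod_cast h2
  have h3' : (fa t : ℝ) ≤ wa (max s t) := by exact_mod_cast h3
  have h4' : (wa (max s t) : ℝ) ≤ fb t := by exact_mod_cast h4
  refine claw_sees j _ _ ((wa (max s t) : ℝ) / 100) ⟨?_, ?_⟩ ⟨?_, ?_⟩ ?_
  · show (fa s : ℝ) / 100 ≤ _
    linarith
  · show _ ≤ (fb s : ℝ) / 100
    linarith
  · show (fa t : ℝ) / 100 ≤ _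
    linarith
  · show _ ≤ (fb t : ℝ) / 100
    linarith
  · intro w hws hwt hb
    have hb' := nat_between hb
    rintro ⟨h5, h6⟩
    rcases f_free s t h w (fun h => hws (by rw [h])) (fun h => hwt (by rw [h])) hb'.1 hb'.2 with
      h7 | h7
    · have h8 : (wa (max s t) : ℝ) < fa w := by exact_mod_cast h7
      linarith
    · have h8 : (fb w : ℝ) < wa (max s t) := by exact_mod_cast h7
      linarith

theorem claw_sees_long (j : ℕ) (s : Fin 7) (l : Fin j) :
    (clawRep j).Sees j (Sum.inl s) (Sum.inr l) := by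
  obtain ⟨h1, h2⟩ := f_long s
  have h1' : (fa s : ℝ) ≤ wl s := by exact_mod_cast h1
  have h2' : (wl s : ℝ) ≤ fb s := by exact_mod_cast h2
  have h3 : (1 : ℝ) ≤ fa s := by exact_mod_cast (f_bounds s).1
  have h4 : (fb s : ℝ) ≤ 39 := by exact_mod_cast (f_bounds s).2.2.1
  refine claw_sees j _ _ ((wl s : ℝ) / 100) ⟨?_, ?_⟩ ⟨?_, ?_⟩ ?_
  · show (fa s : ℝ) / 100 ≤ _
    linarith
  · show _ ≤ (fb s : ℝ) / 100
    linarith
  · show (1 : ℝ) / 100 ≤ _
    linarith
  · show _ ≤ (39 : ℝ) / 100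
    linarith
  · intro w hws _ hb
    rintro ⟨h5, h6⟩
    have hf := frac_bounds l.val
    have hb' : (ro w : ℝ) ∈ Set.uIcc (ro s : ℝ) (1 + 1 / ((l.val : ℝ) + 2)) := hb
    have hs := (f_bounds s).2.2.2.1
    have hcond : (2 ≤ ro s ∧ 2 ≤ ro w ∧ ro w ≤ ro s) ∨ (ro s = 1 ∧ ro w = 1) := by
      rw [Set.mem_uIcc] at hb'
      rcases hb' with hb' | hb'
      · right
        have e1 : (ro w : ℝ) < 2 := by linarith [hb'.2]
        have e2 : ro w < 2 := by exact_mod_cast e1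
        have e3 : ro s ≤ ro w := by exact_mod_cast hb'.1
        omega
      · left
        have e1 : (1 : ℝ) < ro w := by linarith [hb'.1]
        have e2 : 1 < ro w := by exact_mod_cast e1
        have e3 : ro w ≤ ro s := by exact_mod_cast hb'.2
        omega
    rcases f_longfree s w (fun h => hws (by rw [h])) hcond with h7 | h7
    · have h8 : (wl s : ℝ) < fa w := by exact_mod_cast h7
      linarith
    · have h8 : (fb w : ℝ) < wl s := by exact_mod_cast h7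
      linarith

theorem claw_sees_longs (j : ℕ) (l l' : Fin j) :
    (clawRep j).Sees j (Sum.inr l) (Sum.inr l') := by
  refine claw_sees j _ _ (1 / 100) ⟨le_rfl, ?_⟩ ⟨le_rfl, ?_⟩ ?_
  · show (1 : ℝ) / 100 ≤ 39 / 100
    norm_num
  · show (1 : ℝ) / 100 ≤ 39 / 100
    norm_num
  · rintro w _ _ hb ⟨h5, h6⟩
    have hf := frac_bounds l.val
    have hf' := frac_bounds l'.val
    have hb' : (ro w : ℝ) ∈ Set.uIcc (1 + 1 / ((l.val : ℝ) + 2)) (1 + 1 / ((l'.val : ℝ) + 2)) := hb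
    rw [Set.mem_uIcc] at hb'
    have e1 : (1 : ℝ) < ro w ∧ (ro w : ℝ) < 2 := by
      rcases hb' with hb' | hb'
      · exact ⟨by linarith [hb'.1], by linarith [hb'.2]⟩
      · exact ⟨by linarith [hb'.1], by linarith [hb'.2]⟩
    have e2 : 1 < ro w := by exact_mod_cast e1.1
    have e3 : ro w < 2 := by exact_mod_cast e1.2
    omega

/-- the arcs of the centre and of the last leaf do not see each other -/
theorem claw_not_06 (j : ℕ) : ¬ (clawRep j).Sees j (Sum.inl 0) (Sum.inl 6) := by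
  rw [half_sees (clawRep j) (fun w => by linarith [claw_a j w]) (fun w => by linarith [claw_b j w])]
  rintro ⟨t, h1, h2, h3⟩
  have h4 : (19 : ℝ) / 100 ≤ t ∧ t ≤ 21 / 100 := by
    have h5 : ((fa 6 : ℕ) : ℝ) / 100 ≤ t ∧ t ≤ ((fb 6 : ℕ) : ℝ) / 100 := h2
    have e1 : fa 6 = 19 := by decide
    have e2 : fb 6 = 21 := by decide
    rw [e1, e2] at h5
    exact_mod_cast h5
  have hsub : insert (Sum.inl 3) (Set.range Sum.inr) ⊆ {w | w ≠ Sum.inl 0 ∧ w ≠ Sum.inl 6 ∧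
      (clawRep j).r w ∈ Set.uIcc ((clawRep j).r (Sum.inl 0)) ((clawRep j).r (Sum.inl 6)) ∧
      (clawRep j).a w ≤ t ∧ t ≤ (clawRep j).b w} := by
    have e0 : (clawRep j).r (Sum.inl 0) = 3 := by
      show ((ro 0 : ℕ) : ℝ) = 3
      have : ro 0 = 3 := by decide
      rw [this]; norm_num
    have e6 : (clawRep j).r (Sum.inl 6) = 1 := by
      show ((ro 6 : ℕ) : ℝ) = 1
      have : ro 6 = 1 := by decide
      rw [this]; norm_num
    rintro w (h5 | ⟨l, h5⟩)
    · rw [h5]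
      refine ⟨fun h => ?_, fun h => ?_, ?_, ?_, ?_⟩
      · exact absurd (Sum.inl_injective h) (by decide)
      · exact absurd (Sum.inl_injective h) (by decide)
      · rw [e0, e6, Set.uIcc_of_ge (by norm_num)]
        show ((ro 3 : ℕ) : ℝ) ∈ _
        have : ro 3 = 2 := by decide
        rw [this]
        constructor <;> norm_num
      · show ((fa 3 : ℕ) : ℝ) / 100 ≤ t
        have : fa 3 = 17 := by decide
        rw [this]
        push_cast
        linarith [h4.1]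
      · show t ≤ ((fb 3 : ℕ) : ℝ) / 100
        have : fb 3 = 23 := by decide
        rw [this]
        push_cast
        linarith [h4.2]
    · rw [← h5]
      have hf := frac_bounds l.val
      refine ⟨fun h => ?_, fun h => ?_, ?_, ?_, ?_⟩
      · exact absurd h Sum.inr_ne_inl
      · exact absurd h Sum.inr_ne_inl
      · rw [e0, e6, Set.uIcc_of_ge (by norm_num)]
        show (1 : ℝ) + 1 / ((l.val : ℝ) + 2) ∈ _
        exact ⟨hf.1.le, by linarith [hf.2]⟩
      · show (1 : ℝ) / 100 ≤ t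
        linarith [h4.1]
      · show t ≤ (39 : ℝ) / 100
        linarith [h4.2]
  have h5 := Set.ncard_le_ncard hsub (Set.toFinite _)
  rw [Set.ncard_insert_of_notMem (by rintro ⟨l, h⟩; exact absurd h Sum.inr_ne_inl)
    (Set.toFinite _), range_inr_ncard] at h5
  omega

theorem claw_not_tree (j : ℕ) (s t : Fin 7) (hst : s ≠ t) (h : ¬ TAdj s t) :
    ¬ (clawRep j).Sees j (Sum.inl s) (Sum.inl t) := by
  intro hs
  have hs' := hs
  rw [half_sees (clawRep j) (fun w => by linarith [claw_a j w]) (fun w => by linarith [claw_b j w])]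
    at hs
  obtain ⟨x, ⟨h1, h2⟩, ⟨h3, h4⟩, -⟩ := hs
  have h1' : (fa s : ℝ) / 100 ≤ x := h1
  have h2' : x ≤ (fb s : ℝ) / 100 := h2
  have h3' : (fa t : ℝ) / 100 ≤ x := h3
  have h4' : x ≤ (fb t : ℝ) / 100 := h4
  rcases f_non s t hst h with h5 | h5 | ⟨h5, h6⟩ | ⟨h5, h6⟩
  · have h6 : (fb s : ℝ) < fa t := by exact_mod_cast h5
    linarith
  · have h6 : (fb t : ℝ) < fa s := by exact_mod_cast h5
    linarith
  · rw [h5, h6] at hs'
    exact claw_not_06 j hs'
  · rw [h5, h6] at hs'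
    exact claw_not_06 j (sees_symm hs')

/-- the join of the subdivided claw with a complete graph -/
def JoinAdj {j : ℕ} (u v : Fin 7 ⊕ Fin j) : Prop :=
  u ≠ v ∧ ∀ s t, u = Sum.inl s → v = Sum.inl t → TAdj s t

def joinGraph (j : ℕ) : SimpleGraph (Fin 7 ⊕ Fin j) where
  Adj := JoinAdj
  symm := ⟨fun _ _ h => ⟨h.1.symm, fun s t hs ht => tadj_symm (h.2 t s ht hs)⟩⟩
  loopless := ⟨fun _ h => h.1 rfl⟩

theorem joinGraph_rep (P Q : Prop) (j : ℕ) : IsArcVisibility P Q j (joinGraph j) := by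
  refine ⟨clawRep j, fun _ => claw_lt j, fun _ w => by linarith [claw_a j w, claw_b j w],
    fun u v => ⟨fun h => ⟨h.1, ?_⟩, fun h => ⟨h.1, ?_⟩⟩⟩
  · rcases u with s | l <;> rcases v with t | l'
    · exact claw_sees_tree j s t (h.2 s t rfl rfl)
    · exact claw_sees_long j s l'
    · exact sees_symm (claw_sees_long j t l)
    · exact claw_sees_longs j l l'
  · rintro s t rfl rfl
    by_contra hcon
    exact claw_not_tree j s t (fun h' => h.1 (by rw [h'])) hcon h.2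

theorem joinGraph_clique (j : ℕ) (S : Finset (Fin 7 ⊕ Fin j))
    (hS : ∀ u ∈ S, ∀ v ∈ S, u ≠ v → (joinGraph j).Adj u v) : S.card ≤ j + 2 := by
  classical
  have h1 : S ⊆ (S.toLeft.image Sum.inl) ∪ (Finset.univ.image Sum.inr) := by
    rintro (s | l) hx
    · exact Finset.mem_union_left _ (Finset.mem_image_of_mem _ (Finset.mem_toLeft.2 hx))
    · exact Finset.mem_union_right _ (Finset.mem_image_of_mem _ (Finset.mem_univ _))
  have h2 : S.toLeft.card ≤ 2 := by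
    by_contra hcon
    push Not at hcon
    obtain ⟨a, ha, b, hb, c, hc, hab, hac, hbc⟩ := Finset.two_lt_card.1 hcon
    rw [Finset.mem_toLeft] at ha hb hc
    exact f_tri a b c
      ((hS _ ha _ hb (fun h => hab (Sum.inl_injective h))).2 a b rfl rfl)
      ((hS _ hb _ hc (fun h => hbc (Sum.inl_injective h))).2 b c rfl rfl)
      ((hS _ ha _ hc (fun h => hac (Sum.inl_injective h))).2 a c rfl rfl)
  have h3 := (Finset.card_le_card h1).trans (Finset.card_union_le _ _)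
  have h4 := Finset.card_image_le (s := S.toLeft) (f := (Sum.inl : Fin 7 → Fin 7 ⊕ Fin j))
  have h5 := Finset.card_image_le (s := (Finset.univ : Finset (Fin j)))
    (f := (Sum.inr : Fin j → Fin 7 ⊕ Fin j))
  rw [Finset.card_univ, Fintype.card_fin] at h5
  omega

theorem case_gt (P Q : Prop) (i j : ℕ) (hij : j < i) :
    ∃ (V : Type) (_ : Fintype V) (G : SimpleGraph V), IsArcVisibility P Q j G ∧
      ¬ IsArcVisibility P Q i G := by
  refine ⟨Fin 7 ⊕ Fin j, inferInstance, joinGraph j, joinGraph_rep P Q j, ?_⟩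
  rintro ⟨R, -, -, hR⟩
  have hc : ∀ S : Finset (Fin 7 ⊕ Fin j), (∀ u ∈ S, ∀ v ∈ S, u ≠ v → R.Sees i u v) →
      S.card < i + 2 := by
    intro S hS
    have := joinGraph_clique j S fun u hu v hv huv => (hR u v).2 ⟨huv, hS u hu v hv huv⟩
    omega
  have hI : ∀ u v, u ≠ v → (Inter R u v ↔ (joinGraph j).Adj u v) := by
    intro u v huv
    rw [hR, inter_iff, ← sees_iff R i hc u v]
    exact ⟨fun h => ⟨huv, h⟩, fun h => h.2⟩
  have hT : ∀ s t : Fin 7, s ≠ t → (Inter R (Sum.inl s) (Sum.inl t) ↔ TAdj s t) := by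
    intro s t hst
    have hne : (Sum.inl s : Fin 7 ⊕ Fin j) ≠ Sum.inl t := fun h => hst (Sum.inl_injective h)
    rw [hI _ _ hne]
    constructor
    · intro h
      exact h.2 s t rfl rfl
    · intro h
      refine ⟨hne, fun s' t' hs ht => ?_⟩
      rw [← Sum.inl_injective hs, ← Sum.inl_injective ht]
      exact h
  let a : Fin 3 → Fin 7 := ![1, 2, 3]
  let b : Fin 3 → Fin 7 := ![4, 5, 6]
  have p1 : ∀ x : Fin 3, a x ≠ 0 ∧ TAdj (a x) 0 := by decide
  have p2 : ∀ x : Fin 3, b x ≠ a x ∧ TAdj (b x) (a x) := by decide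
  have p3 : ∀ x : Fin 3, 0 ≠ b x ∧ ¬ TAdj 0 (b x) := by decide
  have p4 : ∀ x y : Fin 3, x ≠ y → b x ≠ b y ∧ ¬ TAdj (b x) (b y) := by decide
  have p5 : ∀ x y : Fin 3, x ≠ y → a x ≠ b y ∧ ¬ TAdj (a x) (b y) := by decide
  exact not_circular R (Sum.inl 0) (fun x => Sum.inl (a x)) (fun x => Sum.inl (b x))
    (fun x => (hT _ _ (p1 x).1).2 (p1 x).2) (fun x => (hT _ _ (p2 x).1).2 (p2 x).2)
    (fun x => fun h => (p3 x).2 ((hT _ _ (p3 x).1).1 h))
    (fun x y hxy h => (p4 x y hxy).2 ((hT _ _ (p4 x y hxy).1).1 h))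
    (fun x y hxy h => (p5 x y hxy).2 ((hT _ _ (p5 x y hxy).1).1 h))

theorem incomparable (P Q : Prop) (i j : ℕ) (hij : i ≠ j) :
    ∃ (V : Type) (_ : Fintype V) (G : SimpleGraph V), IsArcVisibility P Q j G ∧
      ¬ IsArcVisibility P Q i G := by
  rcases lt_or_gt_of_ne hij with h | h
  · exact case_lt P Q i j h
  · exact case_gt P Q i j h

end Pool.Agent.Q266.AV
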