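import Mathlib

set_option autoImplicit false

/-!
# Arc visibility graphs: definitions

Angles are measured in full turns: the direction `θ` is the same as `θ + k` for every integer `k`,
and `θ + 1 / 2` is the opposite direction.
-/

namespace Pool.Agent.Q266.AV

/-- An arc representation: for every vertex `v` a closed arc of the circle with radius `r v` around
the centre `O`, from the direction `a v` counterclockwise to the direction `b v`. It is a single
point if `b v = a v` and the whole circle if `b v = a v + 1`; these two cases are excluded below by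
`IsArcVisibility` when its arguments `points`, `circles` are false. The arcs are pairwise
disjoint. -/
structure ArcRep (V : Type) where
  r : V → ℝ
  a : V → ℝ
  b : V → ℝ
  r_pos : ∀ v, 0 < r v
  a_le_b : ∀ v, a v ≤ b v
  b_le : ∀ v, b v ≤ a v + 1
  disjoint : ∀ u v, u ≠ v → r u = r v → ∀ θ : ℝ,
    ¬ ((∃ k : ℤ, a u ≤ θ + k ∧ θ + k ≤ b u) ∧ ∃ k : ℤ, a v ≤ θ + k ∧ θ + k ≤ b v)

variable {V : Type}

/-- The arc of `v` meets the ray from `O` in the direction `θ`. -/
def ArcRep.On (R : ArcRep V) (v : V) (θ : ℝ) : Prop := ∃ k : ℤ, R.a v ≤ θ + k ∧ θ + k ≤ R.b v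

/-- On the line through `O` with the direction `θ` a point is given by its coordinate `x`: the
distance from `O` on the ray in the direction `θ`, and minus the distance on the opposite ray.
`R.At θ x v`: the point with the coordinate `x` of this line is on the arc of `v`. -/
def ArcRep.At (R : ArcRep V) (θ x : ℝ) (v : V) : Prop :=
  (x = R.r v ∧ R.On v θ) ∨ (x = - R.r v ∧ R.On v (θ + 1 / 2))

/-- The arcs of `u` and `v` are joined by a line of sight, a segment of a line through `O` with one
endpoint on each of the two arcs, that meets at most `k` further arcs. -/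
def ArcRep.Sees (R : ArcRep V) (k : ℕ) (u v : V) : Prop :=
  ∃ θ x y : ℝ, R.At θ x u ∧ R.At θ y v ∧
    {w | w ≠ u ∧ w ≠ v ∧ ∃ z ∈ Set.uIcc x y, R.At θ z w}.ncard ≤ k

/-- `G` is an arc `k`-visibility graph. Arcs with only one point are admitted when `points` is true,
whole circles are admitted when `circles` is true. -/
def IsArcVisibility (points circles : Prop) (k : ℕ) (G : SimpleGraph V) : Prop :=
  ∃ R : ArcRep V, (¬ points → ∀ v, R.a v < R.b v) ∧ (¬ circles → ∀ v, R.b v < R.a v + 1) ∧
    ∀ u v, G.Adj u v ↔ u ≠ v ∧ R.Sees k u v

end Pool.Agent.Q266.AV
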