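import Pool.Agent.Q266.AV.Near

set_option autoImplicit false

namespace Pool.Agent.Q266.AV

open Filter Topology

/-- the last point of an interval on which a property holds -/
theorem last_point (Vis RV : ℝ → Prop) (θ : ℝ) (h0 : Vis θ)
    (hl : ∀ y, ∀ᶠ z in 𝓝[<] y, (Vis z ↔ Vis y)) (hr : ∀ y, ∀ᶠ z in 𝓝[>] y, (Vis z ↔ RV y))
    (hb : ∃ t₀, θ < t₀ ∧ ¬ Vis t₀) : ∃ y, Vis y ∧ ¬ RV y := by
  obtain ⟨t₀, ht₀, hv₀⟩ := hb
  set Y : Set ℝ := {t | θ ≤ t ∧ ∀ s, θ ≤ s → s ≤ t → Vis s} with hY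
  have hθ : θ ∈ Y := ⟨le_rfl, fun s h1 h2 => by rw [le_antisymm h2 h1]; exact h0⟩
  have hbdd : BddAbove Y := ⟨t₀, fun t ht => by
    by_contra h
    exact hv₀ (ht.2 t₀ ht₀.le (not_le.1 h).le)⟩
  set y := sSup Y with hy
  have hθy : θ ≤ y := le_csSup hbdd hθ
  have hbelow : ∀ s, θ ≤ s → s < y → Vis s := by
    intro s h1 h2
    obtain ⟨t, ht, hst⟩ := exists_lt_of_lt_csSup ⟨θ, hθ⟩ h2
    exact ht.2 s h1 hst.le
  have hvy : Vis y := by
    rcases eq_or_lt_of_le hθy with h | h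
    · rw [← h]; exact h0
    · have h1 : ∀ᶠ z in 𝓝[<] y, θ < z := nhdsWithin_le_nhds (lt_mem_nhds h)
      obtain ⟨z, hz1, hz2, hz3⟩ := ((hl y).and (h1.and self_mem_nhdsWithin)).exists
      exact hz1.1 (hbelow z hz2.le hz3)
  refine ⟨y, hvy, fun hR => ?_⟩
  have h2 := hr y
  rw [eventually_nhdsWithin_iff] at h2
  obtain ⟨ε, hε, h3⟩ := Metric.eventually_nhds_iff.1 h2
  have h4 : y + ε / 2 ∈ Y := by
    refine ⟨by linarith, fun s h5 h6 => ?_⟩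
    rcases lt_trichotomy s y with h | h | h
    · exact hbelow s h5 h
    · rw [h]; exact hvy
    · have h7 : dist s y < ε := by
        rw [Real.dist_eq, abs_of_pos (by linarith)]; linarith
      exact (h3 h7 h).2 hR
  have := le_csSup hbdd h4
  linarith

variable {V : Type} (R : ArcRep V)

/-- the left view of the line with direction `θ` -/
def ArcRep.LAt (R : ArcRep V) (θ x : ℝ) (v : V) : Prop :=
  (x = R.r v ∧ LOn (R.a v) (R.b v) θ) ∨ (x = - R.r v ∧ LOn (R.a v) (R.b v) (θ + 1 / 2))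

/-- the right view of the line with direction `θ` -/
def ArcRep.RAt (R : ArcRep V) (θ x : ℝ) (v : V) : Prop :=
  (x = R.r v ∧ ROn (R.a v) (R.b v) θ) ∨ (x = - R.r v ∧ ROn (R.a v) (R.b v) (θ + 1 / 2))

theorem ArcRep.LAt.at {R : ArcRep V} {θ x : ℝ} {v : V} (h : R.LAt θ x v) : R.At θ x v := by
  rcases h with ⟨h1, h2⟩ | ⟨h1, h2⟩
  · exact Or.inl ⟨h1, con_of_lon h2⟩
  · exact Or.inr ⟨h1, con_of_lon h2⟩

theorem at_inj (R : ArcRep V) (θ z : ℝ) (u v : V) (h1 : R.At θ z u) (h2 : R.At θ z v) : u = v := by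
  by_contra hne
  have hu := R.r_pos u
  have hv := R.r_pos v
  rcases h1 with ⟨h3, h4⟩ | ⟨h3, h4⟩ <;> rcases h2 with ⟨h5, h6⟩ | ⟨h5, h6⟩
  · exact R.disjoint u v hne (by rw [← h3, ← h5]) θ ⟨h4, h6⟩
  · linarith
  · linarith
  · exact R.disjoint u v hne (by linarith) _ ⟨h4, h6⟩

theorem lat_inj (R : ArcRep V) (θ z : ℝ) (u v : V) (h1 : R.LAt θ z u) (h2 : R.LAt θ z v) : u = v :=
  at_inj R θ z u v h1.at h2.at

theorem at_rev (R : ArcRep V) (θ z : ℝ) (v : V) : R.At (θ + 1 / 2) (-z) v ↔ R.At θ z v := by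
  have h1 : R.On v (θ + 1 / 2 + 1 / 2) ↔ R.On v θ := by
    have h2 : θ + 1 / 2 + 1 / 2 = θ + ((1 : ℤ) : ℝ) := by push_cast; ring
    rw [h2]; exact COn.add_int 1
  unfold ArcRep.At
  rw [h1, neg_inj, neg_eq_iff_eq_neg]
  exact or_comm

theorem lat_rev (R : ArcRep V) (θ z : ℝ) (v : V) : R.LAt (θ + 1 / 2) (-z) v ↔ R.LAt θ z v := by
  have h1 : LOn (R.a v) (R.b v) (θ + 1 / 2 + 1 / 2) ↔ LOn (R.a v) (R.b v) θ := by
    have h2 : θ + 1 / 2 + 1 / 2 = θ + ((1 : ℤ) : ℝ) := by push_cast; ring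
    rw [h2]; exact LOn.add_int 1
  unfold ArcRep.LAt
  rw [h1, neg_inj, neg_eq_iff_eq_neg]
  exact or_comm

theorem at_per (R : ArcRep V) (θ z : ℝ) (v : V) (κ : ℤ) : R.At (θ + κ) z v ↔ R.At θ z v := by
  have h2 : θ + κ + 1 / 2 = θ + 1 / 2 + κ := by ring
  unfold ArcRep.At ArcRep.On
  rw [h2]
  exact or_congr (and_congr_right fun _ => COn.add_int κ) (and_congr_right fun _ => COn.add_int κ)

theorem lat_per (R : ArcRep V) (θ z : ℝ) (v : V) (κ : ℤ) : R.LAt (θ + κ) z v ↔ R.LAt θ z v := by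
  have h2 : θ + κ + 1 / 2 = θ + 1 / 2 + κ := by ring
  unfold ArcRep.LAt
  rw [h2]
  exact or_congr (and_congr_right fun _ => LOn.add_int κ) (and_congr_right fun _ => LOn.add_int κ)

theorem lat_left [Finite V] (R : ArcRep V) (y : ℝ) :
    ∀ᶠ θ in 𝓝[<] y, ∀ v z, (R.LAt θ z v ↔ R.LAt y z v) := by
  rw [eventually_all]
  intro v
  have h1 := left_const (R.a v) (R.b v) y (R.b_le v)
  have h2 := left_const (R.a v) (R.b v) (y + 1 / 2) (R.b_le v)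
  have h3 : Tendsto (fun θ : ℝ => θ + 1 / 2) (𝓝[<] y) (𝓝[<] (y + 1 / 2)) := by
    refine tendsto_nhdsWithin_iff.2 ⟨?_, ?_⟩
    · exact ((continuous_id.add continuous_const).tendsto y).mono_left nhdsWithin_le_nhds
    · filter_upwards [self_mem_nhdsWithin] with z hz
      have hz' : z < y := hz
      show z + 1 / 2 < y + 1 / 2
      linarith
  filter_upwards [h1, h3.eventually h2] with θ h4 h5 z
  unfold ArcRep.LAt
  rw [h4, h5]

theorem lat_right [Finite V] (R : ArcRep V) (y : ℝ) :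
    ∀ᶠ θ in 𝓝[>] y, ∀ v z, (R.LAt θ z v ↔ R.RAt y z v) := by
  rw [eventually_all]
  intro v
  have h1 := right_const (R.a v) (R.b v) y (R.b_le v)
  have h2 := right_const (R.a v) (R.b v) (y + 1 / 2) (R.b_le v)
  have h3 : Tendsto (fun θ : ℝ => θ + 1 / 2) (𝓝[>] y) (𝓝[>] (y + 1 / 2)) := by
    refine tendsto_nhdsWithin_iff.2 ⟨?_, ?_⟩
    · exact ((continuous_id.add continuous_const).tendsto y).mono_left nhdsWithin_le_nhds
    · filter_upwards [self_mem_nhdsWithin] with z hz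
      have hz' : y < z := hz
      show y + 1 / 2 < z + 1 / 2
      linarith
  filter_upwards [h1, h3.eventually h2] with θ h4 h5 z
  unfold ArcRep.LAt ArcRep.RAt
  rw [h4, h5]

/-- the coordinate `z` of the line belongs to the last point of the arc of `w` -/
def ArcRep.Last (R : ArcRep V) (θ z : ℝ) (w : V) : Prop :=
  (z = R.r w ∧ ∃ κ : ℤ, θ + κ = R.b w) ∨ (z = - R.r w ∧ ∃ κ : ℤ, θ + 1 / 2 + κ = R.b w)

/-- the coordinate `z` of the line belongs to the first point of the arc of `w` -/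
def ArcRep.First (R : ArcRep V) (θ z : ℝ) (w : V) : Prop :=
  (z = R.r w ∧ ∃ κ : ℤ, θ + κ = R.a w) ∨ (z = - R.r w ∧ ∃ κ : ℤ, θ + 1 / 2 + κ = R.a w)

theorem last_of {R : ArcRep V} {θ z : ℝ} {w : V} (h1 : R.LAt θ z w) (h2 : ¬ R.RAt θ z w) :
    R.Last θ z w := by
  rcases h1 with ⟨h3, κ, h4, h5⟩ | ⟨h3, κ, h4, h5⟩
  · refine Or.inl ⟨h3, κ, ?_⟩
    by_contra hne
    exact h2 (Or.inl ⟨h3, κ, h4.le, lt_of_le_of_ne h5 hne⟩)
  · refine Or.inr ⟨h3, κ, ?_⟩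
    by_contra hne
    exact h2 (Or.inr ⟨h3, κ, h4.le, lt_of_le_of_ne h5 hne⟩)

theorem first_of {R : ArcRep V} {θ z : ℝ} {w : V} (h1 : R.RAt θ z w) (h2 : ¬ R.LAt θ z w) :
    R.First θ z w := by
  rcases h1 with ⟨h3, κ, h4, h5⟩ | ⟨h3, κ, h4, h5⟩
  · refine Or.inl ⟨h3, κ, ?_⟩
    by_contra hne
    exact h2 (Or.inl ⟨h3, κ, lt_of_le_of_ne h4 (Ne.symm hne), h5.le⟩)
  · refine Or.inr ⟨h3, κ, ?_⟩
    by_contra hne
    exact h2 (Or.inr ⟨h3, κ, lt_of_le_of_ne h4 (Ne.symm hne), h5.le⟩)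

theorem not_lat (R : ArcRep V) (x : ℝ) (u : V) (hlt : R.b u < R.a u + 1) (θ : ℝ)
    (h : R.LAt θ x u) : ∃ t₀, θ < t₀ ∧ ¬ R.LAt t₀ x u := by
  have hr := R.r_pos u
  have key : ∀ m : ℤ, ¬ LOn (R.a u) (R.b u) (R.a u + m) := by
    rintro m ⟨κ, h1, h2⟩
    have h3 := hlt
    have h4 : (0 : ℝ) < ((m + κ : ℤ) : ℝ) := by push_cast; linarith
    have h5 : ((m + κ : ℤ) : ℝ) < 1 := by push_cast; linarith
    have h6 : (0 : ℤ) < m + κ := by exact_mod_cast h4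
    have h7 : m + κ < (1 : ℤ) := by exact_mod_cast h5
    omega
  rcases h with ⟨h1, -⟩ | ⟨h1, -⟩
  · obtain ⟨m, hm⟩ := exists_nat_gt (θ - R.a u)
    refine ⟨R.a u + m, by linarith, ?_⟩
    rintro (⟨-, h3⟩ | ⟨h2, -⟩)
    · exact key m (by exact_mod_cast h3)
    · linarith
  · obtain ⟨m, hm⟩ := exists_nat_gt (θ + 1 / 2 - R.a u)
    refine ⟨R.a u + m - 1 / 2, by linarith, ?_⟩
    rintro (⟨h2, -⟩ | ⟨-, h3⟩)
    · linarith
    · refine key m ?_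
      have h4 : R.a u + (m : ℝ) - 1 / 2 + 1 / 2 = R.a u + ((m : ℤ) : ℝ) := by push_cast; ring
      rwa [h4] at h3

/-- the elements between two positions of a view -/
def Btw (P : ℝ → V → Prop) (u v : V) (x y : ℝ) : Set V :=
  {w | w ≠ u ∧ w ≠ v ∧ ∃ z, x < z ∧ z < y ∧ P z w}

theorem event [Finite V] (R : ArcRep V) (k : ℕ) (u v : V) (x y : ℝ) (θ : ℝ)
    (hu : R.LAt θ x u) (hv : R.LAt θ y v) (hc : (Btw (R.LAt θ) u v x y).ncard ≤ k)
    (hn : R.b u < R.a u + 1 ∨ R.b v < R.a v + 1) :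
    ∃ θ', R.LAt θ' x u ∧ R.LAt θ' y v ∧ (Btw (R.LAt θ') u v x y).ncard ≤ k ∧
      (R.Last θ' x u ∨ R.Last θ' y v ∨ ∃ w z, x < z ∧ z < y ∧ R.First θ' z w) := by
  obtain ⟨θ', ⟨h1, h2, h3⟩, h4⟩ := last_point
    (fun t => R.LAt t x u ∧ R.LAt t y v ∧ (Btw (R.LAt t) u v x y).ncard ≤ k)
    (fun t => R.RAt t x u ∧ R.RAt t y v ∧ (Btw (R.RAt t) u v x y).ncard ≤ k) θ ⟨hu, hv, hc⟩
    (fun t => by
      filter_upwards [lat_left R t] with s hs
      have e : R.LAt s = R.LAt t := by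
        funext z w; exact propext (hs w z)
      rw [e])
    (fun t => by
      filter_upwards [lat_right R t] with s hs
      have e : R.LAt s = R.RAt t := by
        funext z w; exact propext (hs w z)
      rw [e])
    (by
      rcases hn with hn | hn
      · obtain ⟨t₀, h1, h2⟩ := not_lat R x u hn θ hu
        exact ⟨t₀, h1, fun h => h2 h.1⟩
      · obtain ⟨t₀, h1, h2⟩ := not_lat R y v hn θ hv
        exact ⟨t₀, h1, fun h => h2 h.2.1⟩)
  refine ⟨θ', h1, h2, h3, ?_⟩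
  by_cases h5 : R.RAt θ' x u
  · by_cases h6 : R.RAt θ' y v
    · right; right
      have h7 : ¬ (Btw (R.RAt θ') u v x y).ncard ≤ k := fun h => h4 ⟨h5, h6, h⟩
      have h8 : ¬ Btw (R.RAt θ') u v x y ⊆ Btw (R.LAt θ') u v x y := fun h =>
        h7 ((Set.ncard_le_ncard h (Set.toFinite _)).trans h3)
      rw [Set.not_subset] at h8
      obtain ⟨w, ⟨h9, h10, z, h11, h12, h13⟩, h14⟩ := h8
      exact ⟨w, z, h11, h12, first_of h13 fun h => h14 ⟨h9, h10, z, h11, h12, h⟩⟩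
    · exact Or.inr (Or.inl (last_of h2 h6))
  · exact Or.inl (last_of h1 h5)

end Pool.Agent.Q266.AV
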