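import Pool.Agent.Q266.AV.Defs

set_option autoImplicit false

namespace Pool.Agent.Q266.AV

variable {V : Type}

/-- the elements with a position below `x₀` which is among the nearest ones -/
def NearB (P : ℝ → V → Prop) (m : ℕ) (x₀ : ℝ) : Set V :=
  {u | ∃ s, s < x₀ ∧ P s u ∧ {w | w ≠ u ∧ ∃ z, s < z ∧ z < x₀ ∧ P z w}.ncard ≤ m}

/-- the elements with a position above `x₀` which is among the nearest ones -/
def NearA (P : ℝ → V → Prop) (m : ℕ) (x₀ : ℝ) : Set V :=
  {u | ∃ s, x₀ < s ∧ P s u ∧ {w | w ≠ u ∧ ∃ z, x₀ < z ∧ z < s ∧ P z w}.ncard ≤ m}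

theorem nearB_card [Finite V] (P : ℝ → V → Prop) (hP : ∀ z u v, P z u → P z v → u = v) (m : ℕ)
    (x₀ : ℝ) : (NearB P m x₀).ncard ≤ m + 1 := by
  classical
  by_contra hcon
  push Not at hcon
  have hfin : (NearB P m x₀).Finite := Set.toFinite _
  choose! s hs1 hs2 hs3 using fun u (hu : u ∈ NearB P m x₀) => hu
  have hne : (NearB P m x₀).Nonempty := by
    rw [← Set.ncard_pos hfin]; omega
  obtain ⟨u, hu, hmin⟩ := Set.exists_min_image _ s hfin hne
  have hsub : NearB P m x₀ \ {u} ⊆ {w | w ≠ u ∧ ∃ z, s u < z ∧ z < x₀ ∧ P z w} := by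
    rintro w ⟨hw, hwu⟩
    have hwu' : w ≠ u := hwu
    refine ⟨hwu', s w, lt_of_le_of_ne (hmin w hw) ?_, hs1 w hw, hs2 w hw⟩
    intro he
    have h1 := hs2 w hw
    rw [← he] at h1
    exact hwu' (hP _ _ _ h1 (hs2 u hu))
  have h1 := Set.ncard_le_ncard hsub (Set.toFinite _)
  have h2 := hs3 u hu
  have h3 : (NearB P m x₀ \ {u}).ncard = (NearB P m x₀).ncard - 1 :=
    Set.ncard_sdiff_singleton_of_mem hu
  omega

theorem nearA_card [Finite V] (P : ℝ → V → Prop) (hP : ∀ z u v, P z u → P z v → u = v) (m : ℕ)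
    (x₀ : ℝ) : (NearA P m x₀).ncard ≤ m + 1 := by
  have h := nearB_card (fun z => P (-z)) (fun z u v h1 h2 => hP _ _ _ h1 h2) m (-x₀)
  convert h using 2
  ext u
  constructor
  · rintro ⟨s, h1, h2, h3⟩
    refine ⟨-s, by linarith, by simpa using h2, ?_⟩
    convert h3 using 2
    ext w
    constructor
    · rintro ⟨h4, z, h5, h6, h7⟩
      exact ⟨h4, -z, by linarith, by linarith, h7⟩
    · rintro ⟨h4, z, h5, h6, h7⟩
      exact ⟨h4, -z, by linarith, by linarith, by simpa using h7⟩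
  · rintro ⟨s, h1, h2, h3⟩
    refine ⟨-s, by linarith, h2, ?_⟩
    convert h3 using 2
    ext w
    constructor
    · rintro ⟨h4, z, h5, h6, h7⟩
      exact ⟨h4, -z, by linarith, by linarith, by simpa using h7⟩
    · rintro ⟨h4, z, h5, h6, h7⟩
      exact ⟨h4, -z, by linarith, by linarith, h7⟩

/-! ### one arc: left and right neighbourhoods -/

/-- the arc `[a, b]` meets the directions just before `θ` -/
def LOn (a b θ : ℝ) : Prop := ∃ k : ℤ, a < θ + k ∧ θ + k ≤ b

/-- the arc `[a, b]` meets the directions just after `θ` -/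
def ROn (a b θ : ℝ) : Prop := ∃ k : ℤ, a ≤ θ + k ∧ θ + k < b

/-- the arc `[a, b]` meets the direction `θ` -/
def COn (a b θ : ℝ) : Prop := ∃ k : ℤ, a ≤ θ + k ∧ θ + k ≤ b

theorem LOn.add_int {a b θ : ℝ} (m : ℤ) : LOn a b (θ + m) ↔ LOn a b θ := by
  constructor
  · rintro ⟨k, h1, h2⟩
    exact ⟨m + k, by push_cast; linarith, by push_cast; linarith⟩
  · rintro ⟨k, h1, h2⟩
    exact ⟨k - m, by push_cast; linarith, by push_cast; linarith⟩

theorem COn.add_int {a b θ : ℝ} (m : ℤ) : COn a b (θ + m) ↔ COn a b θ := by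
  constructor
  · rintro ⟨k, h1, h2⟩
    exact ⟨m + k, by push_cast; linarith, by push_cast; linarith⟩
  · rintro ⟨k, h1, h2⟩
    exact ⟨k - m, by push_cast; linarith, by push_cast; linarith⟩

theorem LOn.of_shift {a b θ : ℝ} (m : ℤ) {θ' : ℝ} (h : θ' = θ + m) : LOn a b θ' ↔ LOn a b θ := by
  rw [h]; exact LOn.add_int m

/-- there is exactly one candidate for the integer -/
theorem lon_iff (a b θ : ℝ) (hb : b ≤ a + 1) :
    LOn a b θ ↔ θ + (1 - ⌈θ - a⌉ : ℤ) ≤ b := by
  constructor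
  · rintro ⟨k, h1, h2⟩
    have h3 : ⌈θ - a⌉ = 1 - k := by
      rw [Int.ceil_eq_iff]
      push_cast
      constructor <;> linarith
    rw [h3]
    push_cast
    linarith
  · intro h
    refine ⟨1 - ⌈θ - a⌉, ?_, h⟩
    push_cast
    linarith [Int.ceil_lt_add_one (θ - a)]

theorem ron_iff (a b θ : ℝ) (hb : b ≤ a + 1) :
    ROn a b θ ↔ θ + (- ⌊θ - a⌋ : ℤ) < b := by
  constructor
  · rintro ⟨k, h1, h2⟩
    have h3 : ⌊θ - a⌋ = - k := by
      rw [Int.floor_eq_iff]
      push_cast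
      constructor <;> linarith
    rw [h3]
    push_cast
    linarith
  · intro h
    refine ⟨- ⌊θ - a⌋, ?_, h⟩
    push_cast
    linarith [Int.floor_le (θ - a)]

open Filter Topology

theorem left_const (a b y : ℝ) (hb : b ≤ a + 1) :
    ∀ᶠ z in 𝓝[<] y, (LOn a b z ↔ LOn a b y) := by
  have h1 : ∀ᶠ z in 𝓝[<] y, ((⌈y - a⌉ : ℝ) - 1) + a < z :=
    nhdsWithin_le_nhds (lt_mem_nhds (by linarith [Int.ceil_lt_add_one (y - a)]))
  by_cases hy : LOn a b y
  · filter_upwards [h1, self_mem_nhdsWithin] with z hz hzy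
    have hzy' : z < y := hzy
    have h3 : ⌈z - a⌉ = ⌈y - a⌉ := by
      rw [Int.ceil_eq_iff]
      constructor
      · linarith
      · linarith [Int.le_ceil (y - a)]
    rw [lon_iff a b z hb, lon_iff a b y hb, h3]
    rw [lon_iff a b y hb] at hy
    constructor
    · intro _; exact hy
    · intro _; linarith
  · rw [lon_iff a b y hb] at hy
    push Not at hy
    have h2 : ∀ᶠ z in 𝓝[<] y, b - (1 - ⌈y - a⌉ : ℤ) < z :=
      nhdsWithin_le_nhds (lt_mem_nhds (by linarith))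
    filter_upwards [h1, h2, self_mem_nhdsWithin] with z hz hz2 hzy
    have hzy' : z < y := hzy
    have h3 : ⌈z - a⌉ = ⌈y - a⌉ := by
      rw [Int.ceil_eq_iff]
      constructor
      · linarith
      · linarith [Int.le_ceil (y - a)]
    rw [lon_iff a b z hb, lon_iff a b y hb, h3]
    constructor
    · intro h; linarith
    · intro h; linarith

theorem right_const (a b y : ℝ) (hb : b ≤ a + 1) :
    ∀ᶠ z in 𝓝[>] y, (LOn a b z ↔ ROn a b y) := by
  have h1 : ∀ᶠ z in 𝓝[>] y, z < (⌊y - a⌋ : ℝ) + 1 + a :=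
    nhdsWithin_le_nhds (gt_mem_nhds (by linarith [Int.lt_floor_add_one (y - a)]))
  have key : ∀ z, y < z → z < (⌊y - a⌋ : ℝ) + 1 + a → ⌈z - a⌉ = ⌊y - a⌋ + 1 := by
    intro z h2 h3
    rw [Int.ceil_eq_iff]
    push_cast
    constructor
    · linarith [Int.floor_le (y - a)]
    · linarith
  by_cases hy : ROn a b y
  · rw [ron_iff a b y hb] at hy
    have h2 : ∀ᶠ z in 𝓝[>] y, z < b - (- ⌊y - a⌋ : ℤ) :=
      nhdsWithin_le_nhds (gt_mem_nhds (by linarith))
    filter_upwards [h1, h2, self_mem_nhdsWithin] with z hz hz2 hzy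
    have hzy' : y < z := hzy
    rw [lon_iff a b z hb, ron_iff a b y hb, key z hzy' hz]
    push_cast at hy hz2 ⊢
    constructor
    · intro _; linarith
    · intro _; linarith
  · rw [ron_iff a b y hb] at hy
    push Not at hy
    filter_upwards [h1, self_mem_nhdsWithin] with z hz hzy
    have hzy' : y < z := hzy
    rw [lon_iff a b z hb, ron_iff a b y hb, key z hzy' hz]
    push_cast at hy ⊢
    constructor
    · intro h; linarith
    · intro h; linarith

theorem lon_of_con {a b θ : ℝ} (h : COn a b θ) (hne : ∀ k : ℤ, θ + k ≠ a) : LOn a b θ := by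
  obtain ⟨k, h1, h2⟩ := h
  exact ⟨k, lt_of_le_of_ne h1 (hne k).symm, h2⟩

theorem con_of_lon {a b θ : ℝ} (h : LOn a b θ) : COn a b θ := by
  obtain ⟨k, h1, h2⟩ := h
  exact ⟨k, h1.le, h2⟩

end Pool.Agent.Q266.AV
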