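import Pool.Agent.Q266.AV.Twin

set_option autoImplicit false

namespace Pool.Agent.Q266.AV

variable {V : Type}

/-- an initial part with `k` elements -/
theorem exists_initial (L : Finset V) (m : V → ℝ)
    (hm : ∀ u ∈ L, ∀ v ∈ L, m u = m v → u = v) (k : ℕ) (hk : k ≤ L.card) :
    ∃ S ⊆ L, S.card = k ∧ ∀ u ∈ S, ∀ v ∈ L, m v ≤ m u → v ∈ S := by
  classical
  induction k with
  | zero => exact ⟨∅, Finset.empty_subset _, rfl, fun u hu => absurd hu (Finset.notMem_empty u)⟩
  | succ k ih =>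
    obtain ⟨S, h1, h2, h3⟩ := ih (by omega)
    have hne : (L \ S).Nonempty := by
      rw [← Finset.card_pos, Finset.card_sdiff_of_subset h1]; omega
    obtain ⟨w, hw, hmin⟩ := Finset.exists_min_image (L \ S) m hne
    rw [Finset.mem_sdiff] at hw
    refine ⟨insert w S, ?_, ?_, ?_⟩
    · intro x hx
      rcases Finset.mem_insert.1 hx with h | h
      · rw [h]; exact hw.1
      · exact h1 h
    · rw [Finset.card_insert_of_notMem hw.2, h2]
    · intro u hu v hv hle
      by_cases hvS : v ∈ S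
      · exact Finset.mem_insert_of_mem hvS
      · rcases Finset.mem_insert.1 hu with h | h
        · subst h
          have h4 := hmin v (Finset.mem_sdiff.2 ⟨hv, hvS⟩)
          rw [hm v hv u hw.1 (le_antisymm hle h4)]
          exact Finset.mem_insert_self _ _
        · exact absurd (h3 u h v hv hle) hvS

/-- If there are no `i + 2` arcs any two of which see each other then every line meets at most
`i + 1` arcs. -/
theorem line_count [Finite V] (R : ArcRep V) (i : ℕ)
    (hc : ∀ S : Finset V, (∀ u ∈ S, ∀ v ∈ S, u ≠ v → R.Sees i u v) → S.card < i + 2) (θ : ℝ) :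
    {w | ∃ z, R.At θ z w}.ncard ≤ i + 1 := by
  classical
  by_contra hcon
  push Not at hcon
  have hfin : {w | ∃ z, R.At θ z w}.Finite := Set.toFinite _
  set L : Finset V := hfin.toFinset with hL
  have hLc : L.card = {w | ∃ z, R.At θ z w}.ncard := (Set.ncard_eq_toFinset_card _ hfin).symm
  have hLm : ∀ w, w ∈ L ↔ ∃ z, R.At θ z w := by
    intro w; rw [hL, Set.Finite.mem_toFinset]; rfl
  have hex : ∃ m : V → ℝ, ∀ w, (∃ z, R.At θ z w) → R.At θ (m w) w ∧ ∀ z, R.At θ z w → m w ≤ z := by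
    refine ⟨fun w => if R.On w (θ + 1 / 2) then - R.r w else R.r w, fun w hw => ?_⟩
    have hr := R.r_pos w
    by_cases h : R.On w (θ + 1 / 2)
    · simp only [if_pos h]
      refine ⟨Or.inr ⟨rfl, h⟩, ?_⟩
      rintro z (⟨h1, -⟩ | ⟨h1, -⟩)
      · linarith
      · linarith
    · simp only [if_neg h]
      obtain ⟨z, hz⟩ := hw
      refine ⟨?_, ?_⟩
      · rcases hz with ⟨h1, h2⟩ | ⟨h1, h2⟩
        · exact Or.inl ⟨rfl, h2⟩
        · exact absurd h2 h
      · rintro z (⟨h1, -⟩ | ⟨-, h1⟩)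
        · linarith
        · exact absurd h1 h
  obtain ⟨m, hm⟩ := hex
  obtain ⟨S, h1, h2, h3⟩ := exists_initial L m (fun u hu v hv he => by
    have h4 := (hm u ((hLm u).1 hu)).1
    have h5 := (hm v ((hLm v).1 hv)).1
    rw [he] at h4
    exact at_inj R θ _ u v h4 h5) (i + 2) (by omega)
  refine absurd (hc S ?_) (by omega)
  intro u hu v hv huv
  have hu' := hm u ((hLm u).1 (h1 hu))
  have hv' := hm v ((hLm v).1 (h1 hv))
  refine ⟨θ, m u, m v, hu'.1, hv'.1, ?_⟩
  have hsub : {w | w ≠ u ∧ w ≠ v ∧ ∃ z ∈ Set.uIcc (m u) (m v), R.At θ z w} ⊆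
      ((S.erase u).erase v : Finset V) := by
    rintro w ⟨h4, h5, z, h6, h7⟩
    have h8 := (hm w ⟨z, h7⟩).2 z h7
    have hwL : w ∈ L := (hLm w).2 ⟨z, h7⟩
    have hwS : w ∈ S := by
      rcases le_total (m u) (m v) with h | h
      · rw [Set.uIcc_of_le h] at h6
        exact h3 v hv w hwL (h8.trans h6.2)
      · rw [Set.uIcc_of_ge h] at h6
        exact h3 u hu w hwL (h8.trans h6.2)
    rw [Finset.mem_coe, Finset.mem_erase, Finset.mem_erase]
    exact ⟨h5, h4, hwS⟩
  refine (Set.ncard_le_ncard hsub (Set.toFinite _)).trans ?_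
  rw [Set.ncard_coe_finset, Finset.card_erase_of_mem (Finset.mem_erase.2 ⟨huv.symm, hv⟩),
    Finset.card_erase_of_mem hu]
  omega

/-- then two arcs see each other exactly when some line meets both -/
theorem sees_iff [Finite V] (R : ArcRep V) (i : ℕ)
    (hc : ∀ S : Finset V, (∀ u ∈ S, ∀ v ∈ S, u ≠ v → R.Sees i u v) → S.card < i + 2) (u v : V) :
    R.Sees i u v ↔ ∃ θ, (∃ x, R.At θ x u) ∧ ∃ y, R.At θ y v := by
  constructor
  · rintro ⟨θ, x, y, h1, h2, -⟩
    exact ⟨θ, ⟨x, h1⟩, y, h2⟩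
  · rintro ⟨θ, ⟨x, h1⟩, y, h2⟩
    refine ⟨θ, x, y, h1, h2, ?_⟩
    have h3 := line_count R i hc θ
    have hsub : {w | w ≠ u ∧ w ≠ v ∧ ∃ z ∈ Set.uIcc x y, R.At θ z w} ⊆
        {w | ∃ z, R.At θ z w} \ {u} := by
      rintro w ⟨h4, h5, z, h6, h7⟩
      exact ⟨⟨z, h7⟩, h4⟩
    have h4 := Set.ncard_le_ncard hsub (Set.toFinite _)
    have h5 : ({w | ∃ z, R.At θ z w} \ {u}).ncard = {w | ∃ z, R.At θ z w}.ncard - 1 :=
      Set.ncard_sdiff_singleton_of_mem ⟨x, h1⟩
    omega

/-- the arc of `v` is met by the line -/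
theorem meets_iff (R : ArcRep V) (θ : ℝ) (v : V) :
    (∃ x, R.At θ x v) ↔ COn (2 * R.a v) (2 * R.b v) (2 * θ) := by
  constructor
  · rintro ⟨x, ⟨-, k, h1, h2⟩ | ⟨-, k, h1, h2⟩⟩
    · exact ⟨2 * k, by push_cast; linarith, by push_cast; linarith⟩
    · exact ⟨2 * k + 1, by push_cast; linarith, by push_cast; linarith⟩
  · rintro ⟨k, h1, h2⟩
    rcases Int.even_or_odd' k with ⟨m, hm | hm⟩
    · refine ⟨R.r v, Or.inl ⟨rfl, m, ?_⟩⟩
      rw [hm] at h1 h2
      push_cast at h1 h2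
      constructor <;> linarith
    · refine ⟨- R.r v, Or.inr ⟨rfl, m, ?_⟩⟩
      rw [hm] at h1 h2
      push_cast at h1 h2
      constructor <;> linarith

/-- two arcs of the circle of length one (the circle of the lines through `O`) meet -/
def Inter (R : ArcRep V) (u v : V) : Prop :=
  ∃ t, COn (2 * R.a u) (2 * R.b u) t ∧ COn (2 * R.a v) (2 * R.b v) t

theorem inter_iff (R : ArcRep V) (u v : V) :
    Inter R u v ↔ ∃ θ, (∃ x, R.At θ x u) ∧ ∃ y, R.At θ y v := by
  constructor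
  · rintro ⟨t, h1, h2⟩
    refine ⟨t / 2, ?_, ?_⟩
    · rw [meets_iff]
      have : 2 * (t / 2) = t := by ring
      rwa [this]
    · rw [meets_iff]
      have : 2 * (t / 2) = t := by ring
      rwa [this]
  · rintro ⟨θ, h1, h2⟩
    rw [meets_iff] at h1 h2
    exact ⟨2 * θ, h1, h2⟩

/-- overlap of two lifts -/
theorem inter_of_lifts (R : ArcRep V) (u v : V) (p q : ℤ)
    (h1 : 2 * R.a u + p ≤ 2 * R.b v + q) (h2 : 2 * R.a v + q ≤ 2 * R.b u + p) : Inter R u v := by
  have hu := R.a_le_b u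
  have hv := R.a_le_b v
  refine ⟨max (2 * R.a u + p) (2 * R.a v + q), ⟨-p, ?_, ?_⟩, ⟨-q, ?_, ?_⟩⟩
  · push_cast
    linarith [le_max_left (2 * R.a u + (p : ℝ)) (2 * R.a v + q)]
  · push_cast
    have : max (2 * R.a u + (p : ℝ)) (2 * R.a v + q) ≤ 2 * R.b u + p := max_le (by linarith) h2
    linarith
  · push_cast
    linarith [le_max_right (2 * R.a u + (p : ℝ)) (2 * R.a v + q)]
  · push_cast
    have : max (2 * R.a u + (p : ℝ)) (2 * R.a v + q) ≤ 2 * R.b v + q := max_le h1 (by linarith)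
    linarith

/-- a lift meeting a given lift -/
theorem lift_of_inter (R : ArcRep V) (u v : V) (p : ℤ) (h : Inter R u v) :
    ∃ q : ℤ, 2 * R.a u + p ≤ 2 * R.b v + q ∧ 2 * R.a v + q ≤ 2 * R.b u + p := by
  obtain ⟨t, ⟨k, h1, h2⟩, l, h3, h4⟩ := h
  refine ⟨p + k - l, ?_, ?_⟩
  · push_cast; linarith
  · push_cast; linarith

/-- the middle one of three arcs in the gap of `c` -/
theorem middle (R : ArcRep V) (c a b b' b'' : V) (p q s : ℤ)
    (h1 : 2 * R.b c < 2 * R.a b' + p) (h2 : 2 * R.b b' + p < 2 * R.a b + q)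
    (h3 : 2 * R.b b + q < 2 * R.a b'' + s) (h4 : 2 * R.b b'' + s < 2 * R.a c + 1)
    (hca : Inter R a c) (hab : Inter R b a) (h5 : ¬ Inter R a b') (h6 : ¬ Inter R a b'') :
    False := by
  have hb := R.a_le_b b
  have hb' := R.a_le_b b'
  have hb'' := R.a_le_b b''
  have hc := R.a_le_b c
  obtain ⟨k, h7, h8⟩ := lift_of_inter R b a q hab
  have h9 : 2 * R.b b' + p < 2 * R.a a + k := by
    by_contra hcon
    push Not at hcon
    exact h5 (inter_of_lifts R a b' k p hcon (by linarith))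
  have h10 : 2 * R.b a + k < 2 * R.a b'' + s := by
    by_contra hcon
    push Not at hcon
    exact h6 (inter_of_lifts R a b'' k s (by linarith) hcon)
  obtain ⟨m, h11, h12⟩ := lift_of_inter R a c k hca
  rcases le_or_gt m 0 with hm | hm
  · have : (m : ℝ) ≤ 0 := by exact_mod_cast hm
    linarith
  · have : (1 : ℝ) ≤ m := by exact_mod_cast hm
    linarith

/-- a lift in the gap of `c` -/
theorem gap_lift (R : ArcRep V) (c b : V) (h : ¬ Inter R c b) :
    ∃ p : ℤ, 2 * R.b c < 2 * R.a b + p ∧ 2 * R.b b + p < 2 * R.a c + 1 := by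
  refine ⟨⌊2 * R.b c - 2 * R.a b⌋ + 1, ?_, ?_⟩
  · push_cast
    linarith [Int.lt_floor_add_one (2 * R.b c - 2 * R.a b)]
  · by_contra hcon
    push Not at hcon
    refine h (inter_of_lifts R c b 1 (⌊2 * R.b c - 2 * R.a b⌋ + 1) (by push_cast; push_cast at hcon; linarith) ?_)
    push_cast
    linarith [Int.floor_le (2 * R.b c - 2 * R.a b)]

theorem not_circular (R : ArcRep V) (c : V) (a b : Fin 3 → V)
    (h1 : ∀ i, Inter R (a i) c) (h2 : ∀ i, Inter R (b i) (a i)) (h3 : ∀ i, ¬ Inter R c (b i))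
    (h4 : ∀ i j, i ≠ j → ¬ Inter R (b i) (b j)) (h5 : ∀ i j, i ≠ j → ¬ Inter R (a i) (b j)) :
    False := by
  choose p hp1 hp2 using fun i => gap_lift R c (b i) (h3 i)
  have hord : ∀ i j, i ≠ j → 2 * R.b (b i) + p i < 2 * R.a (b j) + p j ∨
      2 * R.b (b j) + p j < 2 * R.a (b i) + p i := by
    intro i j hij
    by_contra hcon
    push Not at hcon
    exact h4 i j hij (inter_of_lifts R _ _ _ _ hcon.2 hcon.1)
  have key : ∀ i j k, i ≠ j → k ≠ j → 2 * R.b (b i) + p i < 2 * R.a (b j) + p j →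
      2 * R.b (b j) + p j < 2 * R.a (b k) + p k → False := by
    intro i j k hij hkj h6 h7
    exact middle R c (a j) (b j) (b i) (b k) (p i) (p j) (p k) (hp1 i) h6 h7 (hp2 k) (h1 j) (h2 j)
      (h5 j i hij.symm) (h5 j k hkj.symm)
  rcases hord 0 1 (by decide) with h01 | h01
  · rcases hord 1 2 (by decide) with h12 | h12
    · exact key 0 1 2 (by decide) (by decide) h01 h12
    · rcases hord 0 2 (by decide) with h02 | h02
      · exact key 0 2 1 (by decide) (by decide) h02 h12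
      · exact key 2 0 1 (by decide) (by decide) h02 h01
  · rcases hord 1 2 (by decide) with h12 | h12
    · rcases hord 0 2 (by decide) with h02 | h02
      · exact key 1 0 2 (by decide) (by decide) h01 h02
      · exact key 1 2 0 (by decide) (by decide) h12 h02
    · exact key 2 1 0 (by decide) (by decide) h12 h01

end Pool.Agent.Q266.AV
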