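import Pool.Agent.Q266.AV.Assign

set_option autoImplicit false

namespace Pool.Agent.Q266.AV

open Filter Topology

variable {V : Type}

theorem sees_symm {R : ArcRep V} {k : ℕ} {u v : V} (h : R.Sees k u v) : R.Sees k v u := by
  obtain ⟨θ, x, y, h1, h2, h3⟩ := h
  refine ⟨θ, y, x, h2, h1, ?_⟩
  convert h3 using 2
  ext w
  constructor
  · rintro ⟨h4, h5, h6⟩
    exact ⟨h5, h4, by rwa [Set.uIcc_comm]⟩
  · rintro ⟨h4, h5, h6⟩
    exact ⟨h5, h4, by rwa [Set.uIcc_comm]⟩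

theorem sees_mono {R : ArcRep V} {k l : ℕ} {u v : V} (hkl : k ≤ l) (h : R.Sees k u v) :
    R.Sees l u v := by
  obtain ⟨θ, x, y, h1, h2, h3⟩ := h
  exact ⟨θ, x, y, h1, h2, h3.trans hkl⟩

theorem exists_radius [Finite V] (R : ArcRep V) (v₀ : V) :
    ∃ ρ, R.r v₀ < ρ ∧ ∀ u, R.r v₀ < R.r u → ρ < R.r u := by
  have h : ∀ᶠ ρ in 𝓝[>] (R.r v₀), ∀ u, R.r v₀ < R.r u → ρ < R.r u := by
    rw [eventually_all]
    intro u
    by_cases hu : R.r v₀ < R.r u
    · have h1 : ∀ᶠ ρ in 𝓝[>] (R.r v₀), ρ < R.r u := nhdsWithin_le_nhds (gt_mem_nhds hu)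
      filter_upwards [h1] with ρ h2 _
      exact h2
    · exact Eventually.of_forall fun ρ h => absurd h hu
  obtain ⟨ρ, h1, h2⟩ := (h.and self_mem_nhdsWithin).exists
  exact ⟨ρ, h2, h1⟩

/-- the arc of `v₀` is doubled, with the slightly larger radius `ρ` -/
def twinRep (R : ArcRep V) (v₀ : V) (ρ : ℝ) (h1 : R.r v₀ < ρ)
    (h2 : ∀ u, R.r v₀ < R.r u → ρ < R.r u) : ArcRep (Option V) where
  r := fun o => o.elim ρ R.r
  a := fun o => o.elim (R.a v₀) R.a
  b := fun o => o.elim (R.b v₀) R.b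
  r_pos := by
    rintro (_ | v)
    · exact (R.r_pos v₀).trans h1
    · exact R.r_pos v
  a_le_b := by
    rintro (_ | v)
    · exact R.a_le_b v₀
    · exact R.a_le_b v
  b_le := by
    rintro (_ | v)
    · exact R.b_le v₀
    · exact R.b_le v
  disjoint := by
    rintro (_ | u) (_ | v) huv he θ
    · exact absurd rfl huv
    · exfalso
      have he' : ρ = R.r v := he
      have := h2 v (by rw [← he']; exact h1)
      linarith
    · exfalso
      have he' : R.r u = ρ := he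
      have := h2 u (by rw [he']; exact h1)
      linarith
    · exact R.disjoint u v (fun h => huv (by rw [h])) he θ

theorem twin_old [Finite V] (R : ArcRep V) (v₀ : V) (ρ : ℝ) (h1 : R.r v₀ < ρ)
    (h2 : ∀ u, R.r v₀ < R.r u → ρ < R.r u) (k : ℕ) (u v : V) (h : R.Sees k u v) :
    (twinRep R v₀ ρ h1 h2).Sees (k + 1) (some u) (some v) := by
  obtain ⟨θ, x, y, h3, h4, h5⟩ := h
  refine ⟨θ, x, y, h3, h4, ?_⟩
  have hsub : {w | w ≠ some u ∧ w ≠ some v ∧ ∃ z ∈ Set.uIcc x y, (twinRep R v₀ ρ h1 h2).At θ z w} ⊆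
      insert none (some '' {w | w ≠ u ∧ w ≠ v ∧ ∃ z ∈ Set.uIcc x y, R.At θ z w}) := by
    rintro (_ | w) ⟨h6, h7, z, h8, h9⟩
    · exact Or.inl rfl
    · exact Or.inr ⟨w, ⟨fun h => h6 (by rw [h]), fun h => h7 (by rw [h]), z, h8, h9⟩, rfl⟩
  refine (Set.ncard_le_ncard hsub (Set.toFinite _)).trans ?_
  refine (Set.ncard_insert_le _ _).trans ?_
  have := Set.ncard_image_le (f := some)
    (Set.toFinite {w | w ≠ u ∧ w ≠ v ∧ ∃ z ∈ Set.uIcc x y, R.At θ z w})
  omega

theorem twin_none [Finite V] (R : ArcRep V) (v₀ : V) (ρ : ℝ) (h1 : R.r v₀ < ρ)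
    (h2 : ∀ u, R.r v₀ < R.r u → ρ < R.r u) (k : ℕ) (v : V) (h : R.Sees k v₀ v) :
    (twinRep R v₀ ρ h1 h2).Sees (k + 1) none (some v) := by
  obtain ⟨θ, x, y, h3, h4, h5⟩ := h
  have hr₀ := R.r_pos v₀
  have key : ∃ x', (twinRep R v₀ ρ h1 h2).At θ x' none ∧ ∀ z w, z ∈ Set.uIcc x' x →
      R.At θ z w → z = x := by
    rcases h3 with ⟨h6, h7⟩ | ⟨h6, h7⟩
    · refine ⟨ρ, Or.inl ⟨rfl, h7⟩, fun z w hz hw => ?_⟩
      rw [h6, Set.uIcc_of_ge h1.le] at hz
      rcases hw with ⟨h8, -⟩ | ⟨h8, -⟩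
      · rcases eq_or_lt_of_le hz.1 with h9 | h9
        · rw [h6, h9]
        · exfalso
          have h10 := h2 w (by rw [← h8]; exact h9)
          have h11 := hz.2
          linarith
      · exfalso
        have h10 := R.r_pos w
        have h11 := hz.1
        linarith
    · refine ⟨-ρ, Or.inr ⟨rfl, h7⟩, fun z w hz hw => ?_⟩
      rw [h6, Set.uIcc_of_le (by linarith)] at hz
      rcases hw with ⟨h8, -⟩ | ⟨h8, -⟩
      · exfalso
        have h10 := R.r_pos w
        have h11 := hz.2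
        linarith
      · rcases eq_or_lt_of_le hz.2 with h9 | h9
        · rw [h6, h9]
        · exfalso
          have h10 := h2 w (by linarith)
          have h11 := hz.1
          linarith
  obtain ⟨x', hx', hk⟩ := key
  refine ⟨θ, x', y, hx', h4, ?_⟩
  have hsub : {w | w ≠ none ∧ w ≠ some v ∧ ∃ z ∈ Set.uIcc x' y, (twinRep R v₀ ρ h1 h2).At θ z w} ⊆
      insert (some v₀) (some '' {w | w ≠ v₀ ∧ w ≠ v ∧ ∃ z ∈ Set.uIcc x y, R.At θ z w}) := by
    rintro (_ | w) ⟨h6, h7, z, h8, h9⟩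
    · exact absurd rfl h6
    · by_cases hw : w = v₀
      · exact Or.inl (by rw [hw])
      · refine Or.inr ⟨w, ⟨hw, fun h => h7 (by rw [h]), z, ?_, h9⟩, rfl⟩
        rcases Set.uIcc_subset_uIcc_union_uIcc (b := x) h8 with h10 | h10
        · rw [hk z w h10 h9]
          exact Set.left_mem_uIcc
        · exact h10
  refine (Set.ncard_le_ncard hsub (Set.toFinite _)).trans ?_
  refine (Set.ncard_insert_le _ _).trans ?_
  have := Set.ncard_image_le (f := some)
    (Set.toFinite {w | w ≠ v₀ ∧ w ≠ v ∧ ∃ z ∈ Set.uIcc x y, R.At θ z w})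
  omega

theorem twin_self [Finite V] (R : ArcRep V) (v₀ : V) (ρ : ℝ) (h1 : R.r v₀ < ρ)
    (h2 : ∀ u, R.r v₀ < R.r u → ρ < R.r u) (k : ℕ) :
    (twinRep R v₀ ρ h1 h2).Sees k none (some v₀) := by
  have hr₀ := R.r_pos v₀
  have hon : R.On v₀ (R.a v₀) := ⟨0, by simp, by simpa using R.a_le_b v₀⟩
  refine ⟨R.a v₀, ρ, R.r v₀, Or.inl ⟨rfl, hon⟩, Or.inl ⟨rfl, hon⟩, ?_⟩
  have hsub : {w | w ≠ none ∧ w ≠ some v₀ ∧ ∃ z ∈ Set.uIcc ρ (R.r v₀),
      (twinRep R v₀ ρ h1 h2).At (R.a v₀) z w} ⊆ ∅ := by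
    rintro (_ | w) ⟨h6, h7, z, h8, h9⟩
    · exact absurd rfl h6
    · exfalso
      rw [Set.uIcc_of_ge h1.le] at h8
      have h9' : R.At (R.a v₀) z w := h9
      rcases h9 with ⟨h10, -⟩ | ⟨h10, -⟩
      · have h10' : z = R.r w := h10
        rcases eq_or_lt_of_le h8.1 with h11 | h11
        · rw [← h11] at h9'
          exact h7 (by rw [at_inj R _ _ _ _ h9' (Or.inl ⟨rfl, hon⟩)])
        · have h12 := h2 w (by rw [← h10']; exact h11)
          have h13 := h8.2
          linarith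
      · have h10' : z = - R.r w := h10
        have h12 := R.r_pos w
        have h13 := h8.1
        linarith
  have := Set.ncard_le_ncard hsub (Set.toFinite _)
  rw [Set.ncard_empty] at this
  omega

/-- the arcs admitted in representations -/
def Adm (P Q : Prop) (R : ArcRep V) : Prop :=
  (¬ P → ∀ v, R.a v < R.b v) ∧ (¬ Q → ∀ v, R.b v < R.a v + 1)

/-- there is a complete arc `k`-visibility graph with `n` vertices -/
def Comp (P Q : Prop) (k n : ℕ) : Prop :=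
  ∃ (V : Type) (_ : Fintype V) (R : ArcRep V), Adm P Q R ∧ Fintype.card V = n ∧
    ∀ u v, u ≠ v → R.Sees k u v

theorem comp_mono {P Q : Prop} {k l n : ℕ} (hkl : k ≤ l) (h : Comp P Q k n) : Comp P Q l n := by
  obtain ⟨V, i, R, h0, h1, h2⟩ := h
  exact ⟨V, i, R, h0, h1, fun u v huv => sees_mono hkl (h2 u v huv)⟩

theorem comp_twin {P Q : Prop} {k n : ℕ} (hn : 0 < n) (h : Comp P Q k n) :
    Comp P Q (k + 1) (n + 1) := by
  obtain ⟨V, i, R, h0, h1, h2⟩ := h
  have hne : Nonempty V := by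
    rw [← Fintype.card_pos_iff, h1]; exact hn
  obtain ⟨v₀⟩ := hne
  obtain ⟨ρ, h3, h4⟩ := exists_radius R v₀
  have hnone : ∀ v, (twinRep R v₀ ρ h3 h4).Sees (k + 1) none (some v) := by
    intro v
    by_cases hv : v = v₀
    · rw [hv]; exact twin_self R v₀ ρ h3 h4 (k + 1)
    · exact twin_none R v₀ ρ h3 h4 k v (h2 v₀ v (Ne.symm hv))
  refine ⟨Option V, inferInstance, twinRep R v₀ ρ h3 h4, ⟨fun hp => ?_, fun hq => ?_⟩,
    by rw [Fintype.card_option, h1], ?_⟩
  · rintro (_ | v)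
    · exact h0.1 hp v₀
    · exact h0.1 hp v
  · rintro (_ | v)
    · exact h0.2 hq v₀
    · exact h0.2 hq v
  · rintro (_ | u) (_ | v) huv
    · exact absurd rfl huv
    · exact hnone v
    · exact sees_symm (hnone u)
    · exact twin_old R v₀ ρ h3 h4 k u v (h2 u v fun h => huv (by rw [h]))

theorem comp_one (P Q : Prop) (k : ℕ) : Comp P Q k 1 := by
  refine ⟨Unit, inferInstance, ⟨fun _ => 1, fun _ => 0, fun _ => 1 / 2, fun _ => one_pos,
    fun _ => by norm_num, fun _ => by norm_num, fun u v huv => absurd (Subsingleton.elim u v) huv⟩,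
    ⟨fun _ _ => ?_, fun _ _ => ?_⟩, rfl, fun u v huv => absurd (Subsingleton.elim u v) huv⟩
  · show (0 : ℝ) < 1 / 2
    norm_num
  · show (1 / 2 : ℝ) < 0 + 1
    norm_num

theorem comp_bound {P Q : Prop} {k n : ℕ} (h : Comp P Q k n) : n ≤ bd k := by
  obtain ⟨V, i, R, h0, h1, h2⟩ := h
  rw [← h1]
  exact clique_bound R k h2

/-- the complete graph with the largest number of vertices in the class for `i`, and one more
vertex, separates the classes for `i < j` -/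
theorem case_lt (P Q : Prop) (i j : ℕ) (hij : i < j) :
    ∃ (V : Type) (_ : Fintype V) (G : SimpleGraph V), IsArcVisibility P Q j G ∧
      ¬ IsArcVisibility P Q i G := by
  classical
  have hB : 1 ≤ bd i := by unfold bd; omega
  set N := Nat.findGreatest (Comp P Q i) (bd i) with hN
  have h1 : Comp P Q i N := Nat.findGreatest_spec (m := 1) hB (comp_one P Q i)
  have h2 : 1 ≤ N := Nat.le_findGreatest hB (comp_one P Q i)
  have h3 : ¬ Comp P Q i (N + 1) := by
    intro h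
    have h4 := comp_bound h
    have h5 : N + 1 ≤ N := Nat.le_findGreatest h4 h
    omega
  obtain ⟨V, inst, R, h0, h4, h5⟩ := comp_mono (show i + 1 ≤ j by omega) (comp_twin h2 h1)
  refine ⟨V, inst, ⊤, ⟨R, h0.1, h0.2, fun u v => ?_⟩, ?_⟩
  · rw [SimpleGraph.top_adj]
    exact ⟨fun h => ⟨h, h5 u v h⟩, fun h => h.1⟩
  · rintro ⟨R', h6, h7, h8⟩
    refine h3 ⟨V, inst, R', ⟨h6, h7⟩, h4, fun u v huv => ?_⟩
    exact ((h8 u v).1 (by rw [SimpleGraph.top_adj]; exact huv)).2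

end Pool.Agent.Q266.AV
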